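import Mathlib
import Pool.Agent.H6.Win.Density2

/-!
# Sums over the bad heights

PROOF of `bad_sum`.  `zero_density` (H6/Win/Density2: Carlson) with `σ = 1 - κ` and
`κ' = (4 κ + a) / 2 > 4 σ (1 - σ)`: a finite set `F` of zeros of `zetaPole` with `re ≥ 1 - κ`,
`|im| ≤ T` has `card ≤ C T ^ κ'` (`T ≥ 1`).  Choose for each `j ∈ B` a zero `u j`.  For `i : ℕ` let
`B_i = {j ∈ B | 2 ^ i ≤ 3 + |j| < 2 ^ (i + 1)}`; `|im (u j)| ≤ |j| + 2 ≤ 2 ^ (i + 1)`; the map
`j ↦ u j` has fibres of size at most `4` (`im u - 2 ≤ j ≤ im u + 1`), so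
`card B_i ≤ 4 C 2 ^ ((i + 1) κ')` and `∑_{j ∈ B_i} (3 + |j|) ^ (-a) ≤ 4 C 2 ^ κ' * (2 ^ (-(a - κ'))) ^ i`.
Sum the geometric series over `i < I` (`B = ⋃_{i < I} B_i`, `I` large; e.g. `i = Nat.log 2 (3 + |j|)`).

PROOF of `int_sum`.  `Real.summable_abs_int_rpow` (Mathlib): `∑ |j| ^ (-p)` converges, and
`(3 + |j|) ^ (-p) ≤ |j| ^ (-p)` for `j ≠ 0`; the term `j = 0` is at most `1`.
-/

set_option autoImplicit false

open Complex Filter Topology Set

namespace Pool.Agent.H48.UB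

open Pool.Agent.H6

theorem bad_sum {κ a : ℝ} (hκ : 0 < κ) (hκ1 : κ ≤ 1 / 4) (ha : 4 * κ < a) : ∃ C : ℝ, 0 < C ∧
    ∀ B : Finset ℤ, (∀ j ∈ B, ∃ u : ℂ, zetaPole u = 0 ∧ (j : ℝ) - 1 ≤ u.im ∧ u.im ≤ j + 2 ∧
      1 - κ < u.re) → ∑ j ∈ B, (3 + |(j : ℝ)|) ^ (-a) ≤ C := by
  classical
  set κ' : ℝ := (4 * κ + a) / 2 with hκ'
  have hκ'1 : 4 * (1 - κ) * (1 - (1 - κ)) < κ' := by
    rw [hκ']
    nlinarith
  have hκ'2 : κ' < a := by rw [hκ']; linarith
  have hκ'0 : 0 < κ' := by rw [hκ']; linarith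
  obtain ⟨C, hC, hcount⟩ := Win.zero_density (σ := 1 - κ) (κ := κ') (by linarith) (by linarith)
    hκ'1
  set r : ℝ := (2:ℝ) ^ (κ' - a) with hr
  have hr0 : 0 < r := Real.rpow_pos_of_pos (by norm_num) _
  have hr1 : r < 1 := by
    rw [hr]
    exact Real.rpow_lt_one_of_one_lt_of_neg (by norm_num) (by linarith)
  have h2κ : 0 < (2:ℝ) ^ κ' := Real.rpow_pos_of_pos (by norm_num) _
  refine ⟨4 * C * (2:ℝ) ^ κ' / (1 - r), ?_, ?_⟩
  · have : 0 < 1 - r := by linarith
    positivity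
  intro B hB
  choose! u hu using hB
  set k : ℤ → ℕ := fun j => Nat.log 2 (3 + j.natAbs) with hk
  have hkmap : ∀ j ∈ B, k j ∈ B.image k := fun j hj => Finset.mem_image_of_mem k hj
  rw [← Finset.sum_fiberwise_of_maps_to hkmap]
  have hfib : ∀ i : ℕ, ∑ j ∈ B with k j = i, (3 + |(j : ℝ)|) ^ (-a) ≤
      4 * C * (2:ℝ) ^ κ' * r ^ i := by
    intro i
    have hlow : ∀ j : ℤ, k j = i → (2:ℝ) ^ i ≤ 3 + |(j : ℝ)| := by
      intro j hj
      have h1 : 2 ^ i ≤ 3 + j.natAbs := by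
        rw [← hj]
        exact Nat.pow_log_le_self 2 (by omega)
      have h2 : ((2 ^ i : ℕ) : ℝ) ≤ ((3 + j.natAbs : ℕ) : ℝ) := by exact_mod_cast h1
      push_cast at h2
      rw [Nat.cast_natAbs, Int.cast_abs] at h2
      exact h2
    have hup : ∀ j : ℤ, k j = i → 3 + |(j : ℝ)| ≤ (2:ℝ) ^ (i + 1) := by
      intro j hj
      have h1 : 3 + j.natAbs < 2 ^ (i + 1) := by
        rw [← hj]
        exact Nat.lt_pow_succ_log_self (by norm_num) _
      have h2 : ((3 + j.natAbs : ℕ) : ℝ) < ((2 ^ (i + 1) : ℕ) : ℝ) := by exact_mod_cast h1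
      push_cast at h2
      rw [Nat.cast_natAbs, Int.cast_abs] at h2
      exact h2.le
    have hcardu : (((B.filter (fun j => k j = i)).image u).card : ℝ) ≤
        C * ((2:ℝ) ^ (i + 1)) ^ κ' := by
      refine hcount ((2:ℝ) ^ (i + 1)) _ (one_le_pow₀ (by norm_num)) ?_
      intro v hv
      rw [Finset.mem_image] at hv
      obtain ⟨j, hj, rfl⟩ := hv
      rw [Finset.mem_filter] at hj
      obtain ⟨h1, h2, h3, h4⟩ := hu j hj.1
      have h5 := hup j hj.2
      refine ⟨h4.le, ?_, h1⟩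
      rw [abs_le]
      have h6 := neg_abs_le (j : ℝ)
      have h7 := le_abs_self (j : ℝ)
      constructor <;> linarith
    have hcard : ((B.filter (fun j => k j = i)).card : ℝ) ≤
        4 * (C * ((2:ℝ) ^ (i + 1)) ^ κ') := by
      have h1 : (B.filter (fun j => k j = i)).card ≤
          4 * ((B.filter (fun j => k j = i)).image u).card := by
        refine Finset.card_le_mul_card_image _ 4 ?_
        intro v hv
        have h2 : (B.filter (fun j => k j = i)).filter (fun j => u j = v) ⊆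
            Finset.Icc (⌈v.im - 2⌉) (⌈v.im - 2⌉ + 3) := by
          intro j hj
          rw [Finset.mem_filter, Finset.mem_filter] at hj
          obtain ⟨h1, h2, h3, h4⟩ := hu j hj.1.1
          rw [hj.2] at h2 h3
          rw [Finset.mem_Icc]
          constructor
          · rw [Int.ceil_le]
            linarith
          · have h5 : (j : ℝ) ≤ (⌈v.im - 2⌉ : ℝ) + 3 := by
              have := Int.le_ceil (v.im - 2)
              linarith
            exact_mod_cast h5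
        refine (Finset.card_le_card h2).trans ?_
        rw [Int.card_Icc]
        omega
      calc ((B.filter (fun j => k j = i)).card : ℝ)
          ≤ ((4 * ((B.filter (fun j => k j = i)).image u).card : ℕ) : ℝ) := by exact_mod_cast h1
        _ = 4 * (((B.filter (fun j => k j = i)).image u).card : ℝ) := by push_cast; ring
        _ ≤ 4 * (C * ((2:ℝ) ^ (i + 1)) ^ κ') := by gcongr
    have hterm : ∀ j ∈ B.filter (fun j => k j = i), (3 + |(j : ℝ)|) ^ (-a) ≤
        ((2:ℝ) ^ i) ^ (-a) := by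
      intro j hj
      rw [Finset.mem_filter] at hj
      have h1 := hlow j hj.2
      exact Real.rpow_le_rpow_of_nonpos (by positivity) h1 (by linarith)
    calc ∑ j ∈ B with k j = i, (3 + |(j : ℝ)|) ^ (-a)
        ≤ ∑ j ∈ B with k j = i, ((2:ℝ) ^ i) ^ (-a) := Finset.sum_le_sum hterm
      _ = ((B.filter (fun j => k j = i)).card : ℝ) * ((2:ℝ) ^ i) ^ (-a) := by
          rw [Finset.sum_const, nsmul_eq_mul]
      _ ≤ 4 * (C * ((2:ℝ) ^ (i + 1)) ^ κ') * ((2:ℝ) ^ i) ^ (-a) := by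
          gcongr
      _ = 4 * C * (2:ℝ) ^ κ' * r ^ i := by
          rw [hr, ← Real.rpow_natCast ((2:ℝ) ^ (κ' - a)) i, ← Real.rpow_mul (by norm_num),
            ← Real.rpow_natCast (2:ℝ) (i + 1), ← Real.rpow_natCast (2:ℝ) i,
            ← Real.rpow_mul (by norm_num), ← Real.rpow_mul (by norm_num)]
          have h1 : (2:ℝ) ^ (((i + 1 : ℕ) : ℝ) * κ') = 2 ^ κ' * 2 ^ ((i : ℝ) * κ') := by
            rw [← Real.rpow_add (by norm_num)]
            congr 1
            push_cast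
            ring
          have h2 : (2:ℝ) ^ ((κ' - a) * (i : ℝ)) = 2 ^ ((i : ℝ) * κ') * 2 ^ ((i : ℝ) * -a) := by
            rw [← Real.rpow_add (by norm_num)]
            congr 1
            ring
          rw [h1, h2]
          ring
  calc ∑ i ∈ B.image k, ∑ j ∈ B with k j = i, (3 + |(j : ℝ)|) ^ (-a)
      ≤ ∑ i ∈ B.image k, 4 * C * (2:ℝ) ^ κ' * r ^ i := Finset.sum_le_sum fun i _ => hfib i
    _ = 4 * C * (2:ℝ) ^ κ' * ∑ i ∈ B.image k, r ^ i := by rw [Finset.mul_sum]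
    _ ≤ 4 * C * (2:ℝ) ^ κ' * (1 - r)⁻¹ := by
        gcongr
        rw [← tsum_geometric_of_lt_one hr0.le hr1]
        exact Summable.sum_le_tsum _ (fun i _ => by positivity)
          (summable_geometric_of_lt_one hr0.le hr1)
    _ = 4 * C * (2:ℝ) ^ κ' / (1 - r) := by rw [div_eq_mul_inv]

theorem int_sum {p : ℝ} (hp : 1 < p) : ∃ C : ℝ, 0 < C ∧
    ∀ B : Finset ℤ, ∑ j ∈ B, (3 + |(j : ℝ)|) ^ (-p) ≤ C := by
  classical
  have hsum := Real.summable_abs_int_rpow hp
  set f : ℤ → ℝ := fun j => |(j : ℝ)| ^ (-p) with hf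
  have hf0 : ∀ j, 0 ≤ f j := fun j => Real.rpow_nonneg (abs_nonneg _) _
  refine ⟨1 + ∑' j, f j, ?_, ?_⟩
  · have : 0 ≤ ∑' j, f j := tsum_nonneg hf0
    linarith
  intro B
  have hterm : ∀ j : ℤ, (3 + |(j : ℝ)|) ^ (-p) ≤ f j + if j = 0 then 1 else 0 := by
    intro j
    by_cases hj : j = 0
    · rw [if_pos hj]
      have h1 : (3 + |(j : ℝ)|) ^ (-p) ≤ 1 := by
        apply Real.rpow_le_one_of_one_le_of_nonpos
        · have := abs_nonneg (j : ℝ)
          linarith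
        · linarith
      have := hf0 j
      linarith
    · rw [if_neg hj, add_zero, hf]
      have h1 : 0 < |(j : ℝ)| := by
        rw [abs_pos]
        exact_mod_cast hj
      exact Real.rpow_le_rpow_of_nonpos h1 (by linarith) (by linarith)
  calc ∑ j ∈ B, (3 + |(j : ℝ)|) ^ (-p)
      ≤ ∑ j ∈ B, (f j + if j = 0 then 1 else 0) := Finset.sum_le_sum fun j _ => hterm j
    _ = ∑ j ∈ B, f j + ∑ j ∈ B, (if j = 0 then (1:ℝ) else 0) := Finset.sum_add_distrib
    _ ≤ ∑' j, f j + 1 := by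
        refine add_le_add (hsum.sum_le_tsum _ (fun j _ => hf0 j)) ?_
        rw [Finset.sum_ite_eq']
        split_ifs <;> norm_num
    _ = 1 + ∑' j, f j := by ring

end Pool.Agent.H48.UB
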