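import Mathlib
import Pool.Agent.H48.UP.Omega

/-!
# The distance of the nearby zeros from the line `re s = 1`

PROOF.  `u` is a zero of `zetaPole` iff `u ≠ 1` and `riemannZeta u = 0` (`zetaPole_of_ne`,
`zetaPole_one`).  Call `j` bad if there is a zero `u` with `j - 1 ≤ im u ≤ j + 2` and `re u > 1 - κ`.
If `j` is not bad, `η j = κ`.  If `j` is bad, `η j = sInf {1 - re u}` over the zeros `u` with
`j - 1 ≤ im u ≤ j + 2`, `re u > 1 - κ` (these lie in `Zer`, since `re u < 1` by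
`zetaPole_ne_zero_of_one_le`).  `classical` (H48/UP/Classical) gives `c₀` with
`1 - re u ≥ c₀ / log (2 + |im u|)`; for `j ≤ t ≤ j + 1` one has `2 + |im u| ≤ 4 + |t| ≤ (3 + |t|) ^ 2`,
so `c = min (c₀ / 2) κ` works (`log (3 + |t|) ≥ 1`).  Last item: `om_le` gives
`om x ≤ (1 - re u) log x + log (1 + |im u|)` and `1 + |im u| ≤ 3 + |j|`; take the infimum over `u`.
-/

set_option autoImplicit false

open Complex Filter Topology Set

namespace Pool.Agent.H48.UB

open Pool.Agent.H6 Pool.Agent.H48.UP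

theorem exists_eta {κ : ℝ} (hκ : 0 < κ) (hκ1 : κ ≤ 1 / 4) :
    ∃ c : ℝ, 0 < c ∧ ∃ η : ℤ → ℝ,
      (∀ j, 0 < η j ∧ η j ≤ κ) ∧
      (∀ (j : ℤ) (t : ℝ), (j : ℝ) ≤ t → t ≤ j + 1 → c / Real.log (3 + |t|) ≤ η j) ∧
      (∀ (j : ℤ) (u : ℂ), zetaPole u = 0 → (j : ℝ) - 1 ≤ u.im → u.im ≤ j + 2 →
        u.re ≤ 1 - η j) ∧
      (∀ j : ℤ, η j = κ ∨
        ((∃ u : ℂ, zetaPole u = 0 ∧ (j : ℝ) - 1 ≤ u.im ∧ u.im ≤ j + 2 ∧ 1 - κ < u.re) ∧
          ∀ x : ℝ, 1 ≤ x → om x - Real.log (3 + |(j : ℝ)|) ≤ η j * Real.log x)) := by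
  obtain ⟨c0, hc0, hcl⟩ := classical
  -- zeros of `zetaPole` are zeros of `ζ`
  have hz : ∀ u : ℂ, zetaPole u = 0 → riemannZeta u = 0 := by
    intro u hu
    have h1 : u ≠ 1 := by
      intro h
      rw [h, zetaPole_one] at hu
      exact one_ne_zero hu
    rw [zetaPole_of_ne h1] at hu
    exact (mul_eq_zero.1 hu).resolve_left (sub_ne_zero.2 h1)
  have hlog3 : ∀ t : ℝ, 1 ≤ Real.log (3 + |t|) := by
    intro t
    rw [Real.le_log_iff_exp_le (by positivity)]
    have := Real.exp_one_lt_d9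
    linarith [abs_nonneg t]
  set S : ℤ → Set ℝ := fun j => {r | ∃ u : ℂ, zetaPole u = 0 ∧ (j : ℝ) - 1 ≤ u.im ∧
    u.im ≤ j + 2 ∧ 1 - κ < u.re ∧ r = 1 - u.re} with hS
  set c : ℝ := min (c0 / 2) κ with hc
  have hcpos : 0 < c := lt_min (by positivity) hκ
  have hlow : ∀ (j : ℤ) (t : ℝ), (j : ℝ) ≤ t → t ≤ j + 1 → ∀ r ∈ insert κ (S j),
      c / Real.log (3 + |t|) ≤ r := by
    intro j t h1 h2 r hr
    have hl := hlog3 t
    have hl0 : 0 < Real.log (3 + |t|) := by linarith
    rcases hr with rfl | ⟨u, hu0, hu1, hu2, hu3, rfl⟩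
    · rw [div_le_iff₀ hl0]
      have : c ≤ r := min_le_right _ _
      nlinarith
    · have h3 := hcl u (hz u hu0) (by linarith)
      have hu : |u.im| ≤ |t| + 2 := abs_le.2
        ⟨by linarith [neg_abs_le t], by linarith [le_abs_self t]⟩
      have h4 : Real.log (2 + |u.im|) ≤ 2 * Real.log (3 + |t|) := by
        have h5 : 2 * Real.log (3 + |t|) = Real.log ((3 + |t|) ^ 2) := by
          rw [Real.log_pow]; norm_num
        rw [h5]
        apply Real.log_le_log (by positivity)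
        nlinarith [abs_nonneg t]
      have h6 : 0 < Real.log (2 + |u.im|) := Real.log_pos (by linarith [abs_nonneg u.im])
      have h7 : c0 / (2 * Real.log (3 + |t|)) ≤ c0 / Real.log (2 + |u.im|) :=
        div_le_div_of_nonneg_left hc0.le h6 h4
      have h8 : c / Real.log (3 + |t|) ≤ c0 / (2 * Real.log (3 + |t|)) := by
        rw [div_le_div_iff₀ hl0 (by positivity)]
        have : c ≤ c0 / 2 := min_le_left _ _
        nlinarith
      linarith
  have hbdd : ∀ j : ℤ, BddBelow (insert κ (S j)) := fun j =>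
    ⟨c / Real.log (3 + |(j : ℝ)|), fun r hr => hlow j j le_rfl (by linarith) r hr⟩
  have hne : ∀ j : ℤ, (insert κ (S j)).Nonempty := fun j => ⟨κ, Set.mem_insert _ _⟩
  refine ⟨c, hcpos, fun j => sInf (insert κ (S j)), ?_, ?_, ?_, ?_⟩
  · intro j
    refine ⟨?_, csInf_le (hbdd j) (Set.mem_insert _ _)⟩
    refine lt_of_lt_of_le ?_ (le_csInf (hne j) (hlow j j le_rfl (by linarith)))
    exact div_pos hcpos (by linarith [hlog3 (j : ℝ)])
  · intro j t h1 h2
    exact le_csInf (hne j) (hlow j t h1 h2)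
  · intro j u hu h1 h2
    by_cases h3 : 1 - κ < u.re
    · have : sInf (insert κ (S j)) ≤ 1 - u.re :=
        csInf_le (hbdd j) (Set.mem_insert_of_mem _ ⟨u, hu, h1, h2, h3, rfl⟩)
      linarith
    · have : sInf (insert κ (S j)) ≤ κ := csInf_le (hbdd j) (Set.mem_insert _ _)
      linarith [not_lt.1 h3]
  · intro j
    by_cases hSj : (S j).Nonempty
    · right
      obtain ⟨r0, u0, hu0, hu1, hu2, hu3, hr0⟩ := hSj
      refine ⟨⟨u0, hu0, hu1, hu2, hu3⟩, ?_⟩
      intro x hx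
      have hkey : ∀ u : ℂ, zetaPole u = 0 → (j : ℝ) - 1 ≤ u.im → u.im ≤ j + 2 → 1 - κ < u.re →
          om x - Real.log (3 + |(j : ℝ)|) ≤ (1 - u.re) * Real.log x := by
        intro u h0 h1 h2 h3
        have hlt : u.re < 1 := by
          by_contra h
          exact zetaPole_ne_zero_of_one_le (not_lt.1 h) h0
        have hZ : u ∈ Zer := ⟨hz u h0, by linarith, hlt⟩
        have h4 := om_le hx hZ
        have hu : |u.im| ≤ |(j : ℝ)| + 2 := abs_le.2
          ⟨by linarith [neg_abs_le (j : ℝ)], by linarith [le_abs_self (j : ℝ)]⟩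
        have h5 : Real.log (1 + |u.im|) ≤ Real.log (3 + |(j : ℝ)|) :=
          Real.log_le_log (by positivity) (by linarith)
        linarith
      rcases (Real.log_nonneg hx).eq_or_lt with h0 | h0
      · have := hkey u0 hu0 hu1 hu2 hu3
        rw [← h0] at this ⊢
        linarith
      · have h1 : (om x - Real.log (3 + |(j : ℝ)|)) / Real.log x ≤ sInf (insert κ (S j)) := by
          refine le_csInf (hne j) ?_
          rintro r (rfl | ⟨u, h2, h3, h4, h5, rfl⟩)
          · rw [div_le_iff₀ h0]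
            have := hkey u0 hu0 hu1 hu2 hu3
            nlinarith
          · rw [div_le_iff₀ h0]
            exact hkey u h2 h3 h4 h5
        rwa [div_le_iff₀ h0] at h1
    · left
      rw [Set.not_nonempty_iff_eq_empty] at hSj
      show sInf (insert κ (S j)) = κ
      rw [hSj]
      simp

end Pool.Agent.H48.UB
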