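import Mathlib
import Pool.Agent.H6.CertZero
import Pool.Agent.H6.Win.ZeroSum

/-!
# Size of `(s - 1) ζ(s)` near the line `re s = 1`

PROOF.  `zetaPole_of_ne : s ≠ 1 → zetaPole s = (s - 1) * riemannZeta s`, `zetaPole_one`.
Let `s ≠ 1` (`s = 1` is trivial) and `M = ⌈2 + |im s|⌉₊`, so `2 + |t| ≤ M ≤ 2 (2 + |t|)`.  By
`usum_eq` (H6/CertZero) and `zetaPole_eq`, `frMellin_eq` (H6/ZetaGrowth), exactly as in the proof of
`usum_zero` (H6/CertZero),
  `zetaPole s = (s - 1) * usum s M + M ^ (1 - s) - s * (s - 1) * ∫ t in Ioi M, t ^ (-s - 1) • fr t`,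
the last integral being at most `M ^ (-re s) / re s ≤ 2 M ^ (-re s)`.  Here
`‖usum s M‖ ≤ ∑_{n ≤ M} n ^ (-re s) ≤ ∑ n ^ (a - 1) ≤ M ^ a * ∑ 1 / n ≤ M ^ a * (1 + log M)`
(`harmonic_sum_le`, H6/Win/ZeroSum; `n ^ (-re s) ≤ n ^ (a - 1)` as `n ≥ 1`, `re s ≥ 1 - a`),
`‖s - 1‖ ≤ 2 + |t|`, `‖s‖ ≤ 3 + |t| ≤ 2 (2 + |t|)`, `M ^ (1 - re s) ≤ M ^ a` and
`‖s‖ ‖s - 1‖ * 2 * M ^ (-re s) ≤ 4 (2 + |t|) ^ 2 * M ^ (a - 1) ≤ 4 (2 + |t|) ^ (1 + a)`.
-/

set_option autoImplicit false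

open Complex Filter Topology MeasureTheory Set

namespace Pool.Agent.H48.UB

open Pool.Agent.H6

private lemma tail_bound {s : ℂ} (hs : 0 < s.re) {M : ℕ} (hM : 1 ≤ M) :
    ‖∫ t in Ioi (M : ℝ), (t : ℂ) ^ (-s - 1) • fr t‖ ≤ (M : ℝ) ^ (-s.re) / s.re := by
  have hM1 : (1 : ℝ) ≤ M := by exact_mod_cast hM
  have hM0 : (0 : ℝ) < M := by linarith
  have h6 : ∫ t in Ioi (M : ℝ), t ^ (-s.re - 1) = (M : ℝ) ^ (-s.re) / s.re := by
    rw [integral_Ioi_rpow_of_lt (by linarith) hM0]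
    have : -s.re - 1 + 1 = -s.re := by ring
    rw [this]
    field_simp
  rw [← h6]
  refine norm_integral_le_of_norm_le ?_ ?_
  · exact integrableOn_Ioi_rpow_of_lt (by linarith) hM0
  · filter_upwards [ae_restrict_mem measurableSet_Ioi] with t ht
    have ht0 : 0 < t := lt_trans hM0 ht
    rw [norm_smul, norm_cpow_eq_rpow_re_of_pos ht0]
    have h2 : (-s - 1).re = -s.re - 1 := by simp
    rw [h2]
    have h3 : 0 ≤ t ^ (-s.re - 1) := Real.rpow_nonneg ht0.le _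
    nlinarith [norm_fr_le t, norm_nonneg (fr t)]

private lemma pole_split {s : ℂ} (hs : 0 < s.re) (hs1 : s ≠ 1) {M : ℕ} (hM : 1 ≤ M) :
    zetaPole s = (s - 1) * usum s M + (M : ℂ) ^ (1 - s) -
      s * (s - 1) * ∫ t in Ioi (M : ℝ), (t : ℂ) ^ (-s - 1) • fr t := by
  have hM1 : (1 : ℝ) ≤ M := by exact_mod_cast hM
  have hint := frInt_integrableOn hs
  have hsplit : ∫ t in Ioi (1 : ℝ), (t : ℂ) ^ (-s - 1) • fr t
      = (∫ t in Ioc (1 : ℝ) M, (t : ℂ) ^ (-s - 1) • fr t)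
        + ∫ t in Ioi (M : ℝ), (t : ℂ) ^ (-s - 1) • fr t := by
    rw [← Ioc_union_Ioi_eq_Ioi hM1, setIntegral_union]
    · rw [Set.disjoint_left]
      intro x hx hx2
      exact absurd hx.2 (not_le.mpr hx2)
    · exact measurableSet_Ioi
    · exact hint.mono_set Ioc_subset_Ioi_self
    · exact hint.mono_set (Ioi_subset_Ioi hM1)
  rw [zetaPole_eq hs, frMellin_eq, hsplit]
  have h := usum_eq hs hs1 hM
  have h1s : (1 : ℂ) - s ≠ 0 := sub_ne_zero.mpr (Ne.symm hs1)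
  have hs1' : s - 1 ≠ 0 := sub_ne_zero.mpr hs1
  set A := ∫ t in Ioc (1 : ℝ) M, (t : ℂ) ^ (-s - 1) • fr t
  set B := ∫ t in Ioi (M : ℝ), (t : ℂ) ^ (-s - 1) • fr t
  have h2 : s * (s - 1) * A = s - (s - 1) * usum s M - (M : ℂ) ^ (1 - s) := by
    have h3 : s * A = s / (s - 1) - usum s M + (M : ℂ) ^ (1 - s) / (1 - s) := by
      linear_combination h
    have h4 : s * (s - 1) * A = (s - 1) * (s * A) := by ring
    rw [h4, h3]
    field_simp
    ring
  linear_combination -h2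

theorem zetaPole_near : ∃ C : ℝ, 1 ≤ C ∧ ∀ (a : ℝ) (s : ℂ), 0 ≤ a → a ≤ 1 / 2 → 1 - a ≤ s.re →
    s.re ≤ 3 →
    ‖zetaPole s‖ ≤ C * (2 + |s.im|) ^ (1 + a) * (1 + Real.log (2 + |s.im|)) := by
  refine ⟨10, by norm_num, ?_⟩
  intro a s ha0 ha1 hre hre3
  set T : ℝ := 2 + |s.im| with hT
  have him : 0 ≤ |s.im| := abs_nonneg _
  have hT2 : 2 ≤ T := by rw [hT]; linarith
  have hT0 : 0 < T := by linarith
  have hlog : 0 ≤ Real.log T := Real.log_nonneg (by linarith)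
  have hspos : 0 < s.re := by linarith
  have hTa1 : 1 ≤ T ^ (1 + a) := Real.one_le_rpow (by linarith) (by linarith)
  have hTa : T ^ (1 + a) = T * T ^ a := by
    rw [Real.rpow_add hT0, Real.rpow_one]
  have hTapos : 0 < T ^ a := Real.rpow_pos_of_pos hT0 a
  by_cases hs1 : s = 1
  · rw [hs1, zetaPole_one, norm_one]
    have : 0 ≤ (10 * T ^ (1 + a) - 1) * (1 + Real.log T) := by
      apply mul_nonneg <;> nlinarith
    nlinarith
  set M : ℕ := ⌈T⌉₊ with hM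
  have hMT : T ≤ M := Nat.le_ceil T
  have hMT2 : (M : ℝ) ≤ 2 * T := by
    have := Nat.ceil_lt_add_one hT0.le
    linarith
  have hM1 : 1 ≤ M := by
    have : (1 : ℝ) ≤ M := by linarith
    exact_mod_cast this
  have hM0 : (0 : ℝ) < M := by linarith
  have hM1r : (1 : ℝ) ≤ M := by linarith
  have hMa : (M : ℝ) ^ a ≤ 2 * T ^ a := by
    calc (M : ℝ) ^ a ≤ (2 * T) ^ a := Real.rpow_le_rpow hM0.le hMT2 ha0
      _ = 2 ^ a * T ^ a := Real.mul_rpow (by norm_num) hT0.le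
      _ ≤ 2 * T ^ a := by
          have : (2 : ℝ) ^ a ≤ 2 ^ (1 : ℝ) :=
            Real.rpow_le_rpow_of_exponent_le (by norm_num) (by linarith)
          rw [Real.rpow_one] at this
          exact mul_le_mul_of_nonneg_right this hTapos.le
  have hlogM : 1 + Real.log M ≤ 2 * (1 + Real.log T) := by
    have h1 : Real.log M ≤ Real.log (2 * T) := Real.log_le_log hM0 hMT2
    rw [Real.log_mul (by norm_num) hT0.ne'] at h1
    have h2 : Real.log 2 ≤ 1 := by
      have := Real.log_two_lt_d9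
      linarith
    linarith
  have hu : ‖usum s M‖ ≤ (2 * T ^ a) * (2 * (1 + Real.log T)) := by
    have h1 : ‖usum s M‖ ≤ ∑ n ∈ Finset.Icc 1 M, (M : ℝ) ^ a * ((1 : ℝ) / n) := by
      unfold usum
      refine (norm_sum_le _ _).trans (Finset.sum_le_sum ?_)
      intro n hn
      rw [Finset.mem_Icc] at hn
      have hn1 : (1 : ℝ) ≤ n := by exact_mod_cast hn.1
      have hn0 : (0 : ℝ) < n := by linarith
      have hnM : (n : ℝ) ≤ M := by exact_mod_cast hn.2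
      have e1 : ‖(n : ℂ) ^ (-s)‖ = (n : ℝ) ^ (-s.re) := by
        have := norm_cpow_eq_rpow_re_of_pos hn0 (-s)
        rw [neg_re] at this
        exact_mod_cast this
      rw [e1]
      calc (n : ℝ) ^ (-s.re) ≤ (n : ℝ) ^ (a - 1) :=
            Real.rpow_le_rpow_of_exponent_le hn1 (by linarith)
        _ = (n : ℝ) ^ a * (1 / n) := by
            rw [Real.rpow_sub hn0, Real.rpow_one]
            ring
        _ ≤ (M : ℝ) ^ a * (1 / n) := by
            refine mul_le_mul_of_nonneg_right ?_ (by positivity)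
            exact Real.rpow_le_rpow hn0.le hnM ha0
    refine h1.trans ?_
    rw [← Finset.mul_sum]
    have h2 := Pool.Agent.H6.Win.harmonic_sum_le (A := 1) (B := M) le_rfl hM1
    calc (M : ℝ) ^ a * ∑ n ∈ Finset.Icc 1 M, (1 : ℝ) / n
        ≤ (M : ℝ) ^ a * (1 + Real.log M) :=
          mul_le_mul_of_nonneg_left h2 (Real.rpow_nonneg hM0.le _)
      _ ≤ (2 * T ^ a) * (2 * (1 + Real.log T)) := by
          refine mul_le_mul hMa hlogM ?_ (by positivity)
          have := Real.log_nonneg hM1r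
          linarith
  have hs1n : ‖s - 1‖ ≤ T := by
    have h1 := Complex.norm_le_abs_re_add_abs_im (s - 1)
    have h2 : (s - 1).re = s.re - 1 := by simp
    have h3 : (s - 1).im = s.im := by simp
    rw [h2, h3] at h1
    have h4 : |s.re - 1| ≤ 2 := by
      rw [abs_le]
      constructor <;> linarith
    rw [hT]
    linarith
  have hsn : ‖s‖ ≤ 2 * T := by
    have h1 := Complex.norm_le_abs_re_add_abs_im s
    have h4 : |s.re| ≤ 3 := by
      rw [abs_le]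
      constructor <;> linarith
    rw [hT]
    linarith
  have hpow : ‖(M : ℂ) ^ (1 - s)‖ ≤ 2 * T ^ a := by
    have e1 : ‖(M : ℂ) ^ (1 - s)‖ = (M : ℝ) ^ (1 - s.re) := by
      have := norm_cpow_eq_rpow_re_of_pos hM0 (1 - s)
      rw [sub_re, one_re] at this
      exact_mod_cast this
    rw [e1]
    exact (Real.rpow_le_rpow_of_exponent_le hM1r (by linarith)).trans hMa
  have htail : ‖∫ t in Ioi (M : ℝ), (t : ℂ) ^ (-s - 1) • fr t‖ ≤ 2 * (T ^ a / T) := by
    refine (tail_bound hspos hM1).trans ?_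
    have h1 : (M : ℝ) ^ (-s.re) ≤ T ^ a / T := by
      calc (M : ℝ) ^ (-s.re) ≤ (M : ℝ) ^ (a - 1) :=
            Real.rpow_le_rpow_of_exponent_le hM1r (by linarith)
        _ ≤ T ^ (a - 1) := Real.rpow_le_rpow_of_nonpos hT0 hMT (by linarith)
        _ = T ^ a / T := by rw [Real.rpow_sub hT0, Real.rpow_one]
    have h2 : 0 ≤ T ^ a / T := by positivity
    rw [div_le_iff₀ hspos]
    nlinarith
  rw [pole_split hspos hs1 hM1]
  have hA : ‖(s - 1) * usum s M‖ ≤ T * ((2 * T ^ a) * (2 * (1 + Real.log T))) := by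
    rw [norm_mul]
    exact mul_le_mul hs1n hu (norm_nonneg _) hT0.le
  have hC : ‖s * (s - 1) * ∫ t in Ioi (M : ℝ), (t : ℂ) ^ (-s - 1) • fr t‖ ≤
      2 * T * T * (2 * (T ^ a / T)) := by
    rw [norm_mul, norm_mul]
    exact mul_le_mul (mul_le_mul hsn hs1n (norm_nonneg _) (by positivity)) htail (norm_nonneg _)
      (by positivity)
  have hC2 : 2 * T * T * (2 * (T ^ a / T)) = 4 * (T * T ^ a) := by
    field_simp
    ring
  rw [hC2] at hC
  have hsum := norm_sub_le ((s - 1) * usum s M + (M : ℂ) ^ (1 - s))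
    (s * (s - 1) * ∫ t in Ioi (M : ℝ), (t : ℂ) ^ (-s - 1) • fr t)
  have hsum2 := norm_add_le ((s - 1) * usum s M) ((M : ℂ) ^ (1 - s))
  rw [hTa]
  have hTT : T ^ a ≤ T * T ^ a := by nlinarith
  have hP : 0 ≤ T * T ^ a := by positivity
  nlinarith [mul_nonneg hP hlog]

end Pool.Agent.H48.UB
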