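import Mathlib
import Pool.Agent.H48.UB.ZNear
import Pool.Agent.H6.LogBound
import Pool.Agent.H6.Win.ZetaLoc

/-!
# `1 / ζ` just to the right of the nearby zeros

PROOF.  Let `T = 3 + |t|`, `ℓ = log T ≥ 1`, `κ = min (1/4) (e δ / 16)`, `f = zetaPole` and
`c₀ = 1 + η + i t`.
(a) Let `x ≥ 1 + η`, `z = x + i t`.  `‖(riemannZeta z)⁻¹‖ ≤ ∑' n, 1 / n ^ (1 + η) ≤ 1 + 1 / η ≤ 2 / η`
(`norm_inv_riemannZeta_le`, H6/LogBound; the sum is `ζ(1 + η)`, bounded by comparison with an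
integral, e.g. Mathlib or `zeta_le` type lemmas in H6), `‖z - 1‖ ≥ max η |t| ≥ η T / 4`, so
`‖(f z)⁻¹‖ ≤ 8 / (η ^ 2 T)`.  As `1 / η ≤ ℓ / c` this is at most `(8 / c ^ 2) ℓ ^ 2 / T`, and
`ℓ ^ 2 ≤ C T ^ e`, `T ≥ 1 + |t|`, `T ≤ 3 (1 + |t|)`.
(b) Let `x < 1 + η`.  `f` has no zero in `ball c₀ (2 η)` (there `re > 1 - η`, `|im - t| < 1`), so by
`exists_log_on_ball` (H6/LogBound) there is `L` with `exp (L z) = f z / f c₀`, `L c₀ = 0`.
In the ball `re z ≥ 1 - η`, `re z ≤ 3`, `|im z| ≤ |t| + 1`, so by `zetaPole_near` (`a = η`)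
`‖f z‖ ≤ C (T) ^ (1 + η) (1 + ℓ)`, and `‖f c₀‖ ≥ η ^ 2 T / 8` by (a); hence
`re (L z) ≤ Λ := log (8 C T ^ η (1 + ℓ) / η ^ 2) + 1`, where
`exp Λ ≤ C₁ T ^ κ ℓ ^ 3` with `C₁ = C₁(C, c)`.  Borel-Caratheodory
(`Complex.borelCaratheodory_zero`, applied to `w ↦ L (c₀ + w)`, `R = 2 η`):
for `‖z - c₀‖ ≤ r := (2 - δ) η`: `‖L z‖ ≤ 2 Λ r / (R - r) ≤ 4 Λ / δ`.  The point `z = x + i t` has
`‖z - c₀‖ = 1 + η - x ≤ (2 - δ) η`.  Therefore
`‖(f z)⁻¹‖ ≤ ‖f c₀‖⁻¹ exp (4 Λ / δ) ≤ 8 / (η ^ 2 T) * (C₁ T ^ κ ℓ ^ 3) ^ (4 / δ)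
   ≤ C₂ T ^ (-1 + 4 κ / δ) ℓ ^ (2 + 12 / δ) ≤ C₃ T ^ (-1 + e)`, as `4 κ / δ ≤ e / 4`.
-/

set_option autoImplicit false

open Complex Filter Topology Metric Set

namespace Pool.Agent.H48.UB

open Pool.Agent.H6

/-! ### auxiliary bounds -/

private lemma zsum_le {η : ℝ} (hη : 0 < η) : ∑' n : ℕ, 1 / (n : ℝ) ^ (1 + η) ≤ 1 + 1 / η := by
  have hs : (1 : ℝ) < 1 + η := by linarith
  have h1 := ZetaAsymptotics.zeta_limit_aux1 hs
  have h2 : 0 ≤ ZetaAsymptotics.termTSum (1 + η) :=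
    tsum_nonneg fun n => ZetaAsymptotics.term_nonneg _ _
  have h3 : ∑' n : ℕ, 1 / (n : ℝ) ^ (1 + η) = ∑' n : ℕ, 1 / ((n : ℝ) + 1) ^ (1 + η) := by
    rw [(Real.summable_one_div_nat_rpow.mpr hs).tsum_eq_zero_add]
    rw [Nat.cast_zero, Real.zero_rpow (by linarith), div_zero, zero_add]
    simp only [Nat.cast_add, Nat.cast_one]
  rw [h3]
  have h4 : 1 + η - 1 = η := by ring
  rw [h4] at h1
  have h5 : 0 ≤ (1 + η) * ZetaAsymptotics.termTSum (1 + η) := mul_nonneg (by linarith) h2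
  linarith

private lemma inv_far {η x t : ℝ} (h0 : 0 < η) (h1 : η ≤ 1) (hx : 1 + η ≤ x) :
    ‖(zetaPole ((x : ℂ) + t * I))⁻¹‖ ≤ 8 / (η ^ 2 * (3 + |t|)) := by
  set z : ℂ := (x : ℂ) + t * I with hz
  have hre : z.re = x := by simp [hz]
  have him : z.im = t := by simp [hz]
  have hz1 : z ≠ 1 := by
    intro h
    rw [h, one_re] at hre
    linarith
  rw [zetaPole_of_ne hz1, mul_inv, norm_mul, norm_inv]
  have ha : ‖(riemannZeta z)⁻¹‖ ≤ 2 / η := by
    refine (norm_inv_riemannZeta_le (x := 1 + η) (by linarith) (by rw [hre]; exact hx)).trans ?_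
    refine (zsum_le h0).trans ?_
    have : (1 : ℝ) ≤ 1 / η := by rw [le_div_iff₀ h0]; linarith
    have h2 : (2 : ℝ) / η = 1 / η + 1 / η := by ring
    rw [h2]; linarith
  have hb : η * (3 + |t|) / 4 ≤ ‖z - 1‖ := by
    have h2 : |x - 1| ≤ ‖z - 1‖ := by
      have := abs_re_le_norm (z - 1)
      rwa [sub_re, one_re, hre] at this
    have h3 : |t| ≤ ‖z - 1‖ := by
      have := abs_im_le_norm (z - 1)
      rwa [sub_im, one_im, sub_zero, him] at this
    have h4 : η ≤ ‖z - 1‖ := by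
      have := le_abs_self (x - 1)
      linarith
    rcases le_total |t| 1 with h5 | h5
    · nlinarith
    · nlinarith [abs_nonneg t]
  have hpos : 0 < η * (3 + |t|) / 4 := by positivity
  calc ‖z - 1‖⁻¹ * ‖(riemannZeta z)⁻¹‖ ≤ (η * (3 + |t|) / 4)⁻¹ * (2 / η) := by
        refine mul_le_mul (inv_anti₀ hpos hb) ha (norm_nonneg _) (inv_nonneg.2 hpos.le)
    _ = 8 / (η ^ 2 * (3 + |t|)) := by
        field_simp
        ring

private lemma log_pow_le {p q : ℝ} (hp : 0 < p) (hq : 0 < q) : ∃ K : ℝ, 0 < K ∧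
    ∀ T : ℝ, 1 ≤ T → Real.log T ^ p ≤ K * T ^ q := by
  have hε : 0 < q / p := div_pos hq hp
  refine ⟨((q / p) ^ p)⁻¹, by positivity, ?_⟩
  intro T hT
  have h1 := Real.log_le_rpow_div (by linarith : (0 : ℝ) ≤ T) hε
  have hT0 : (0 : ℝ) < T := by linarith
  calc Real.log T ^ p ≤ (T ^ (q / p) / (q / p)) ^ p :=
        Real.rpow_le_rpow (Real.log_nonneg hT) h1 hp.le
    _ = (T ^ (q / p)) ^ p / (q / p) ^ p := Real.div_rpow (by positivity) hε.le _
    _ = T ^ q / (q / p) ^ p := by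
        rw [← Real.rpow_mul hT0.le, div_mul_cancel₀ _ hp.ne']
    _ = ((q / p) ^ p)⁻¹ * T ^ q := by rw [div_eq_inv_mul]

private lemma shift_pow (e t : ℝ) (he : 0 < e) :
    (3 + |t|) ^ (e - 1) ≤ 3 ^ e * (1 + |t|) ^ (e - 1) := by
  have h0 : 0 ≤ |t| := abs_nonneg t
  have h3 : (1 : ℝ) ≤ 3 ^ e := Real.one_le_rpow (by norm_num) he.le
  have hp : 0 ≤ (1 + |t|) ^ (e - 1) := by positivity
  rcases le_total 1 e with h | h
  · calc (3 + |t|) ^ (e - 1) ≤ (3 * (1 + |t|)) ^ (e - 1) :=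
          Real.rpow_le_rpow (by positivity) (by linarith) (by linarith)
      _ = 3 ^ (e - 1) * (1 + |t|) ^ (e - 1) := Real.mul_rpow (by norm_num) (by positivity)
      _ ≤ 3 ^ e * (1 + |t|) ^ (e - 1) :=
          mul_le_mul_of_nonneg_right
            (Real.rpow_le_rpow_of_exponent_le (by norm_num) (by linarith)) hp
  · calc (3 + |t|) ^ (e - 1) ≤ (1 + |t|) ^ (e - 1) :=
          Real.rpow_le_rpow_of_nonpos (by positivity) (by linarith) (by linarith)
      _ ≤ 3 ^ e * (1 + |t|) ^ (e - 1) := by nlinarith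

theorem inv_local {e δ : ℝ} (he : 0 < e) (hδ : 0 < δ) (hδ1 : δ < 1) :
    ∃ κ : ℝ, 0 < κ ∧ κ ≤ 1 / 4 ∧ ∀ c : ℝ, 0 < c → ∃ C : ℝ, 0 < C ∧ ∀ η t : ℝ, 0 < η → η ≤ κ →
      c / Real.log (3 + |t|) ≤ η →
      (∀ u : ℂ, zetaPole u = 0 → |u.im - t| ≤ 1 → u.re ≤ 1 - η) →
      ∀ x : ℝ, 1 - (1 - δ) * η ≤ x → x ≤ 2 →
        ‖(zetaPole ((x : ℂ) + t * I))⁻¹‖ ≤ C * (1 + |t|) ^ (e - 1) := by
  obtain ⟨C0, hC0, hnear⟩ := zetaPole_near
  set κ : ℝ := min (1 / 4) (e * δ / 16) with hκ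
  have hκ0 : 0 < κ := lt_min (by norm_num) (by positivity)
  have hκ4 : κ ≤ 1 / 4 := min_le_left _ _
  have hκe : κ ≤ e * δ / 16 := min_le_right _ _
  refine ⟨κ, hκ0, hκ4, ?_⟩
  intro c hc
  obtain ⟨K, hK, hKT⟩ := log_pow_le (p := 2 + 12 / δ) (q := 3 * e / 4) (by positivity)
    (by positivity)
  set C1 : ℝ := max (16 * C0 / c ^ 2) 3 with hC1
  have hC13 : 3 ≤ C1 := le_max_right _ _
  have hC10 : 0 < C1 := by linarith
  refine ⟨8 / c ^ 2 * C1 ^ (4 / δ) * K * 3 ^ e, by positivity, ?_⟩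
  intro η t hη hηκ hcη hzero x hx1 hx2
  set T : ℝ := 3 + |t| with hT
  have habs : 0 ≤ |t| := abs_nonneg t
  have hT3 : 3 ≤ T := by linarith
  have hT0 : 0 < T := by linarith
  set ℓ : ℝ := Real.log T with hℓ
  have hℓ1 : 1 ≤ ℓ := by
    rw [hℓ, Real.le_log_iff_exp_le hT0]
    have := Real.exp_one_lt_d9
    linarith
  have hℓ0 : 0 < ℓ := by linarith
  have hη1 : η ≤ 1 / 4 := hηκ.trans hκ4
  have hinv : 1 / η ≤ ℓ / c := by
    rw [div_le_iff₀ hℓ0] at hcη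
    rw [div_le_div_iff₀ hη hc]
    linarith
  have hinv2 : 8 / (η ^ 2 * T) ≤ 8 * ℓ ^ 2 / (c ^ 2 * T) := by
    have h1 : (1 / η) ^ 2 ≤ (ℓ / c) ^ 2 := pow_le_pow_left₀ (by positivity) hinv 2
    calc 8 / (η ^ 2 * T) = 8 / T * (1 / η) ^ 2 := by field_simp
      _ ≤ 8 / T * (ℓ / c) ^ 2 := mul_le_mul_of_nonneg_left h1 (by positivity)
      _ = 8 * ℓ ^ 2 / (c ^ 2 * T) := by field_simp
  set Q : ℝ := C1 * T ^ κ * ℓ ^ 3 with hQ
  have hTκ : 1 ≤ T ^ κ := Real.one_le_rpow (by linarith) hκ0.le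
  have hℓ3 : 1 ≤ ℓ ^ 3 := one_le_pow₀ hℓ1
  have hQ3 : 3 ≤ Q := by
    calc (3 : ℝ) ≤ C1 := hC13
      _ = C1 * 1 * 1 := by ring
      _ ≤ C1 * T ^ κ * ℓ ^ 3 := by
          refine mul_le_mul (mul_le_mul_of_nonneg_left hTκ hC10.le) hℓ3 (by norm_num) (by positivity)
  have hQ0 : 0 < Q := by linarith
  set Λ : ℝ := Real.log Q with hΛ
  have hΛ0 : 0 < Λ := Real.log_pos (by linarith)
  -- the key estimate
  have hkey : ‖(zetaPole ((x : ℂ) + t * I))⁻¹‖ ≤ 8 * ℓ ^ 2 / (c ^ 2 * T) * Real.exp (4 * Λ / δ) := by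
    have hexp1 : 1 ≤ Real.exp (4 * Λ / δ) := Real.one_le_exp (by positivity)
    rcases le_or_gt (1 + η) x with hxη | hxη
    · calc ‖(zetaPole ((x : ℂ) + t * I))⁻¹‖ ≤ 8 / (η ^ 2 * T) := inv_far hη (by linarith) hxη
        _ ≤ 8 * ℓ ^ 2 / (c ^ 2 * T) := hinv2
        _ ≤ 8 * ℓ ^ 2 / (c ^ 2 * T) * Real.exp (4 * Λ / δ) :=
            le_mul_of_one_le_right (by positivity) hexp1
    · set c₀ : ℂ := ((1 + η : ℝ) : ℂ) + t * I with hc₀
      have hc₀re : c₀.re = 1 + η := by simp [hc₀]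
      have hc₀im : c₀.im = t := by simp [hc₀]
      have hR : 0 < 2 * η := by linarith
      have hball : ∀ z ∈ ball c₀ (2 * η), 1 - η < z.re ∧ z.re < 1 + 3 * η ∧
          |z.im - t| < 2 * η := by
        intro z hz
        rw [mem_ball, dist_eq_norm] at hz
        have h1 := (abs_re_le_norm (z - c₀)).trans_lt hz
        have h2 := (abs_im_le_norm (z - c₀)).trans_lt hz
        rw [sub_re, hc₀re, abs_lt] at h1
        rw [sub_im, hc₀im] at h2
        exact ⟨by linarith [h1.1], by linarith [h1.2], h2⟩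
      have hne : ∀ z ∈ ball c₀ (2 * η), zetaPole z ≠ 0 := by
        intro z hz h0
        obtain ⟨h1, h2, h3⟩ := hball z hz
        have := hzero z h0 (by linarith)
        linarith
      obtain ⟨L, -, hLd, hLe⟩ := exists_log_on_ball hR
        (zetaPole_differentiable.differentiableOn (s := ball c₀ (2 * η))) hne
      have hc₀mem : c₀ ∈ ball c₀ (2 * η) := mem_ball_self hR
      have hfc0 : 0 < ‖zetaPole c₀‖ := norm_pos_iff.2 (hne c₀ hc₀mem)
      have hfc : ‖(zetaPole c₀)⁻¹‖ ≤ 8 / (η ^ 2 * T) := inv_far hη (by linarith) le_rfl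
      -- the function on the ball around `0`
      set g : ℂ → ℂ := fun w => L (c₀ + w) - L c₀ with hg
      have hmem : ∀ w ∈ ball (0 : ℂ) (2 * η), c₀ + w ∈ ball c₀ (2 * η) := by
        intro w hw
        rw [mem_ball_zero_iff] at hw
        rw [mem_ball, dist_eq_norm, add_sub_cancel_left]
        exact hw
      have hgd : DifferentiableOn ℂ g (ball 0 (2 * η)) := by
        intro w hw
        have h1 := (hLd _ (hmem w hw)).differentiableAt
        have h2 : DifferentiableAt ℂ (fun w => L (c₀ + w)) w :=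
          h1.comp w ((differentiableAt_const c₀).add differentiableAt_id)
        exact (h2.sub_const _).differentiableWithinAt
      have hgre : ∀ w ∈ ball (0 : ℂ) (2 * η),
          Real.exp (g w).re = ‖zetaPole (c₀ + w)‖ / ‖zetaPole c₀‖ := by
        intro w hw
        rw [← Complex.norm_exp, hg]
        simp only
        rw [Complex.exp_sub, norm_div, hLe _ (hmem w hw), hLe _ hc₀mem]
      have hgmap : Set.MapsTo g (ball 0 (2 * η)) {z | z.re ≤ Λ} := by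
        intro w hw
        show (g w).re ≤ Λ
        rw [hΛ, Real.le_log_iff_exp_le hQ0, hgre w hw]
        obtain ⟨h1, h2, h3⟩ := hball _ (hmem w hw)
        set z : ℂ := c₀ + w with hz
        have him : 2 + |z.im| ≤ T := by
          have h4 : |z.im| ≤ |z.im - t| + |t| := by
            have := abs_add_le (z.im - t) t
            rwa [sub_add_cancel] at this
          linarith
        have him2 : 2 ≤ 2 + |z.im| := by linarith [abs_nonneg z.im]
        have h5 := hnear η z hη.le (by linarith) (by linarith) (by linarith)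
        have h6 : (2 + |z.im|) ^ (1 + η) ≤ T ^ (1 + η) :=
          Real.rpow_le_rpow (by linarith) him (by linarith)
        have h7 : Real.log (2 + |z.im|) ≤ ℓ := Real.log_le_log (by linarith) him
        have h7' : 0 ≤ Real.log (2 + |z.im|) := Real.log_nonneg (by linarith)
        have h8 : ‖zetaPole z‖ ≤ C0 * T ^ (1 + η) * (2 * ℓ) := by
          refine h5.trans ?_
          refine mul_le_mul (mul_le_mul_of_nonneg_left h6 (by linarith)) (by linarith)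
            (by linarith) (by positivity)
        have h9 : T ^ (1 + η) ≤ T * T ^ κ := by
          rw [Real.rpow_add hT0, Real.rpow_one]
          exact mul_le_mul_of_nonneg_left
            (Real.rpow_le_rpow_of_exponent_le (by linarith) hηκ) hT0.le
        calc ‖zetaPole z‖ / ‖zetaPole c₀‖ = ‖zetaPole z‖ * ‖(zetaPole c₀)⁻¹‖ := by
              rw [norm_inv, div_eq_mul_inv]
          _ ≤ (C0 * (T * T ^ κ) * (2 * ℓ)) * (8 * ℓ ^ 2 / (c ^ 2 * T)) := by
              refine mul_le_mul (h8.trans ?_) (hfc.trans hinv2) (norm_nonneg _) (by positivity)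
              exact mul_le_mul_of_nonneg_right
                (mul_le_mul_of_nonneg_left h9 (by linarith)) (by positivity)
          _ = 16 * C0 / c ^ 2 * T ^ κ * ℓ ^ 3 := by
              field_simp
              ring
          _ ≤ C1 * T ^ κ * ℓ ^ 3 := by
              have := le_max_left (16 * C0 / c ^ 2) 3
              gcongr
      -- the point
      set w : ℂ := ((x - (1 + η) : ℝ) : ℂ) with hw
      have hwn : ‖w‖ = 1 + η - x := by
        rw [hw, norm_real, Real.norm_eq_abs, abs_of_neg (by linarith)]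
        ring
      have hwn2 : ‖w‖ ≤ (2 - δ) * η := by rw [hwn]; linarith
      have hwlt : ‖w‖ < 2 * η := by nlinarith
      have hwmem : w ∈ ball (0 : ℂ) (2 * η) := by rwa [mem_ball_zero_iff]
      have hg0 : g 0 = 0 := by simp [hg]
      have hbc := Complex.borelCaratheodory_zero hΛ0 hgd hgmap hR hwmem hg0
      have hbc2 : ‖g w‖ ≤ 4 * Λ / δ := by
        refine hbc.trans ?_
        have h1 : 0 < 2 * η - ‖w‖ := by linarith
        rw [div_le_div_iff₀ h1 hδ]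
        have h2 : δ * η ≤ 2 * η - ‖w‖ := by linarith
        have h3 : ‖w‖ ≤ 2 * η := hwlt.le
        calc 2 * Λ * ‖w‖ * δ ≤ 2 * Λ * (2 * η) * δ := by gcongr
          _ = 4 * Λ * (δ * η) := by ring
          _ ≤ 4 * Λ * (2 * η - ‖w‖) := by gcongr
      have hzw : (x : ℂ) + t * I = c₀ + w := by
        rw [hc₀, hw]
        push_cast
        ring
      have hfin : ‖(zetaPole ((x : ℂ) + t * I))⁻¹‖ = ‖(zetaPole c₀)⁻¹‖ * Real.exp (-(g w).re) := by
        rw [hzw, Real.exp_neg, hgre w hwmem, norm_inv, norm_inv]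
        field_simp
      rw [hfin]
      refine mul_le_mul (hfc.trans hinv2) ?_ (Real.exp_pos _).le (by positivity)
      apply Real.exp_le_exp.2
      have h1 : -(g w).re ≤ ‖g w‖ := by
        have := abs_re_le_norm (g w)
        linarith [neg_le_abs (g w).re]
      exact h1.trans hbc2
  -- conclusion
  have hexp : Real.exp (4 * Λ / δ) = C1 ^ (4 / δ) * T ^ (κ * (4 / δ)) * ℓ ^ (12 / δ) := by
    have h1 : 4 * Λ / δ = Real.log Q * (4 / δ) := by rw [hΛ]; ring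
    rw [h1, ← Real.rpow_def_of_pos hQ0, hQ, Real.mul_rpow (by positivity) (by positivity),
      Real.mul_rpow (by positivity) (by positivity), ← Real.rpow_mul hT0.le,
      ← Real.rpow_natCast ℓ 3, ← Real.rpow_mul hℓ0.le]
    congr 2
    push_cast
    ring
  have hTpow : T⁻¹ * T ^ (κ * (4 / δ)) ≤ T ^ (e / 4 - 1) := by
    have h1 : T⁻¹ = T ^ (-1 : ℝ) := (Real.rpow_neg_one T).symm
    rw [h1, ← Real.rpow_add hT0]
    apply Real.rpow_le_rpow_of_exponent_le (by linarith)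
    have h2 : κ * (4 / δ) ≤ e / 4 := by
      have h3 : κ * (4 / δ) ≤ e * δ / 16 * (4 / δ) :=
        mul_le_mul_of_nonneg_right hκe (by positivity)
      have h4 : e * δ / 16 * (4 / δ) = e / 4 := by field_simp; norm_num
      linarith
    linarith
  have hℓpow : ℓ ^ 2 * ℓ ^ (12 / δ) ≤ K * T ^ (3 * e / 4) := by
    have h1 := hKT T (by linarith)
    rw [← hℓ, Real.rpow_add hℓ0] at h1
    have h2 : ℓ ^ (2 : ℝ) = ℓ ^ 2 := by
      rw [← Real.rpow_natCast ℓ 2]; norm_num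
    rwa [h2] at h1
  calc ‖(zetaPole ((x : ℂ) + t * I))⁻¹‖
      ≤ 8 * ℓ ^ 2 / (c ^ 2 * T) * Real.exp (4 * Λ / δ) := hkey
    _ = 8 / c ^ 2 * C1 ^ (4 / δ) * (ℓ ^ 2 * ℓ ^ (12 / δ)) * (T⁻¹ * T ^ (κ * (4 / δ))) := by
        rw [hexp]
        field_simp
    _ ≤ 8 / c ^ 2 * C1 ^ (4 / δ) * (K * T ^ (3 * e / 4)) * T ^ (e / 4 - 1) := by
        refine mul_le_mul (mul_le_mul_of_nonneg_left hℓpow (by positivity)) hTpow
          (by positivity) (by positivity)
    _ = 8 / c ^ 2 * C1 ^ (4 / δ) * K * T ^ (e - 1) := by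
        have h1 : T ^ (e - 1) = T ^ (3 * e / 4) * T ^ (e / 4 - 1) := by
          rw [← Real.rpow_add hT0]; congr 1; ring
        rw [h1]; ring
    _ ≤ 8 / c ^ 2 * C1 ^ (4 / δ) * K * (3 ^ e * (1 + |t|) ^ (e - 1)) :=
        mul_le_mul_of_nonneg_left (shift_pow e t he) (by positivity)
    _ = 8 / c ^ 2 * C1 ^ (4 / δ) * K * 3 ^ e * (1 + |t|) ^ (e - 1) := by ring

end Pool.Agent.H48.UB
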