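import Mathlib
import Pool.Agent.H6.LiouLoc

/-!
# Size of the integrand of Perron's formula
-/

set_option autoImplicit false

open Complex Filter Topology MeasureTheory Set

namespace Pool.Agent.H48.UB

open Pool.Agent.H6

/-- interpolation between the two bounds for the kernel -/
lemma cpow_diff {X h τ : ℝ} (hX : 1 ≤ X) (hh : 0 < h) (hhX : h ≤ X) (hτ0 : 0 < τ) (hτ1 : τ < 1)
    {w : ℂ} (h0 : 1 / 2 ≤ w.re) (h1 : w.re ≤ 1) :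
    ‖((X + h : ℝ) : ℂ) ^ w - (X : ℂ) ^ w‖ ≤
      8 * (h * (X / h) ^ τ) * X ^ (w.re - 1) * ‖w‖ ^ (1 - τ) := by
  have hXp : 0 < X := by linarith
  set σ : ℝ := w.re with hσ
  set D : ℝ := ‖((X + h : ℝ) : ℂ) ^ w - (X : ℂ) ^ w‖ with hD
  have hD0 : 0 ≤ D := norm_nonneg _
  have b1 : D ≤ 8 * X ^ σ := norm_cpow_sub_le' hX hh.le hhX (by linarith) (by linarith)
  have b2 : D ≤ ‖w‖ * X ^ (σ - 1) * h := norm_cpow_sub_le hXp hh.le (by linarith) (by linarith)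
  have e1 : D ^ τ ≤ (8 * X ^ σ) ^ τ := Real.rpow_le_rpow hD0 b1 hτ0.le
  have e2 : D ^ (1 - τ) ≤ (‖w‖ * X ^ (σ - 1) * h) ^ (1 - τ) :=
    Real.rpow_le_rpow hD0 b2 (by linarith)
  have e3 : D = D ^ τ * D ^ (1 - τ) := by
    rw [← Real.rpow_add_of_nonneg hD0 hτ0.le (by linarith)]
    simp
  have e4 : (8 : ℝ) ^ τ ≤ 8 := by
    calc (8 : ℝ) ^ τ ≤ 8 ^ (1 : ℝ) :=
          Real.rpow_le_rpow_of_exponent_le (by norm_num) (by linarith)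
      _ = 8 := Real.rpow_one 8
  have e5 : (X ^ σ) ^ τ * (X ^ (σ - 1)) ^ (1 - τ) = X ^ (σ - 1) * X ^ τ := by
    rw [← Real.rpow_mul hXp.le, ← Real.rpow_mul hXp.le, ← Real.rpow_add hXp,
      ← Real.rpow_add hXp]
    congr 1
    ring
  have e6 : X ^ τ * h ^ (1 - τ) = h * (X / h) ^ τ := by
    rw [Real.div_rpow hXp.le hh.le, Real.rpow_sub hh, Real.rpow_one]
    have : h ^ τ ≠ 0 := (Real.rpow_pos_of_pos hh τ).ne'
    field_simp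
  rw [e3]
  calc D ^ τ * D ^ (1 - τ) ≤ (8 * X ^ σ) ^ τ * (‖w‖ * X ^ (σ - 1) * h) ^ (1 - τ) := by
        gcongr
    _ = 8 ^ τ * ((X ^ σ) ^ τ * (X ^ (σ - 1)) ^ (1 - τ)) * ‖w‖ ^ (1 - τ) * h ^ (1 - τ) := by
        rw [Real.mul_rpow (by norm_num) (by positivity), Real.mul_rpow (by positivity)
          (by positivity), Real.mul_rpow (by positivity) (by positivity)]
        ring
    _ = 8 ^ τ * (X ^ τ * h ^ (1 - τ)) * X ^ (σ - 1) * ‖w‖ ^ (1 - τ) := by rw [e5]; ring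
    _ = 8 ^ τ * (h * (X / h) ^ τ) * X ^ (σ - 1) * ‖w‖ ^ (1 - τ) := by rw [e6]
    _ ≤ _ := by gcongr

lemma phi_le {X h τ : ℝ} (hX : 1 ≤ X) (hh : 0 < h) (hhX : h ≤ X) (hτ0 : 0 < τ) (hτ1 : τ < 1)
    {w : ℂ} (h0 : 1 / 2 ≤ w.re) (h1 : w.re ≤ 1) {Z R : ℝ} (hZ : ‖riemannZeta (2 * w)‖ ≤ Z)
    (hR : ‖(zetaPole w)⁻¹‖ ≤ R) :
    ‖liouPhiR X (X + h) w‖ ≤
      24 * (h * (X / h) ^ τ) * X ^ (w.re - 1) * (1 + |w.im|) ^ (-τ) * Z * R := by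
  have hXp : 0 < X := by linarith
  have hw3 := one_add_abs_le_norm (w := w) h0
  have hpos : 0 < 1 + |w.im| := by linarith [abs_nonneg w.im]
  have hwpos : 0 < ‖w‖ := by linarith
  have hZ0 : 0 ≤ Z := (norm_nonneg _).trans hZ
  have hR0 : 0 ≤ R := (norm_nonneg _).trans hR
  have b2 := cpow_diff hX hh hhX hτ0 hτ1 h0 h1
  have b5 : ‖w‖ ^ (-τ) ≤ 3 * (1 + |w.im|) ^ (-τ) := by
    have f1 : (1 + |w.im|) / 3 ≤ ‖w‖ := by linarith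
    have f2 : ‖w‖ ^ (-τ) ≤ ((1 + |w.im|) / 3) ^ (-τ) :=
      Real.rpow_le_rpow_of_nonpos (by positivity) f1 (by linarith)
    refine f2.trans ?_
    rw [Real.div_rpow hpos.le (by norm_num), Real.rpow_neg (by norm_num : (0:ℝ) ≤ 3),
      div_inv_eq_mul, mul_comm]
    gcongr
    calc (3 : ℝ) ^ τ ≤ 3 ^ (1 : ℝ) :=
          Real.rpow_le_rpow_of_exponent_le (by norm_num) (by linarith)
      _ = 3 := Real.rpow_one 3
  have hwτ : ‖w‖ ^ (1 - τ) / ‖w‖ = ‖w‖ ^ (-τ) := by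
    rw [div_eq_iff hwpos.ne', ← Real.rpow_add_one hwpos.ne']
    congr 1
    ring
  have hc : 0 ≤ h * (X / h) ^ τ := by positivity
  have hc2 : 0 ≤ X ^ (w.re - 1) := by positivity
  rw [liouPhiR, norm_mul, norm_mul, norm_div]
  calc ‖((X + h : ℝ) : ℂ) ^ w - (X : ℂ) ^ w‖ / ‖w‖ * ‖riemannZeta (2 * w)‖ * ‖(zetaPole w)⁻¹‖
      ≤ (8 * (h * (X / h) ^ τ) * X ^ (w.re - 1) * ‖w‖ ^ (1 - τ)) / ‖w‖ * Z * R := by gcongr
    _ = 8 * (h * (X / h) ^ τ) * X ^ (w.re - 1) * (‖w‖ ^ (1 - τ) / ‖w‖) * Z * R := by ring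
    _ = 8 * (h * (X / h) ^ τ) * X ^ (w.re - 1) * ‖w‖ ^ (-τ) * Z * R := by rw [hwτ]
    _ ≤ 8 * (h * (X / h) ^ τ) * X ^ (w.re - 1) * (3 * (1 + |w.im|) ^ (-τ)) * Z * R := by
        gcongr
    _ = _ := by ring

/-- the crude bound -/
lemma phi_le' {X h : ℝ} (hX : 1 ≤ X) (hh : 0 < h) (hhX : h ≤ X)
    {w : ℂ} (h0 : 1 / 2 ≤ w.re) (h1 : w.re ≤ 2) {Z R : ℝ} (hZ : ‖riemannZeta (2 * w)‖ ≤ Z)
    (hR : ‖(zetaPole w)⁻¹‖ ≤ R) :
    ‖liouPhiR X (X + h) w‖ ≤ 24 * X ^ 2 * (1 + |w.im|)⁻¹ * Z * R := by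
  have hXp : 0 < X := by linarith
  have hw3 := one_add_abs_le_norm (w := w) h0
  have hpos : 0 < 1 + |w.im| := by linarith [abs_nonneg w.im]
  have hwpos : 0 < ‖w‖ := by linarith
  have hZ0 : 0 ≤ Z := (norm_nonneg _).trans hZ
  have hR0 : 0 ≤ R := (norm_nonneg _).trans hR
  have b1 : ‖((X + h : ℝ) : ℂ) ^ w - (X : ℂ) ^ w‖ ≤ 8 * X ^ w.re :=
    norm_cpow_sub_le' hX hh.le hhX (by linarith) (by linarith)
  have b2 : X ^ w.re ≤ X ^ 2 := by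
    calc X ^ w.re ≤ X ^ (2 : ℝ) := Real.rpow_le_rpow_of_exponent_le hX h1
      _ = X ^ 2 := by norm_num
  have b3 : ‖w‖⁻¹ ≤ 3 * (1 + |w.im|)⁻¹ := by
    rw [← div_eq_mul_inv, inv_eq_one_div, div_le_div_iff₀ hwpos hpos]
    linarith
  rw [liouPhiR, norm_mul, norm_mul, norm_div]
  calc ‖((X + h : ℝ) : ℂ) ^ w - (X : ℂ) ^ w‖ / ‖w‖ * ‖riemannZeta (2 * w)‖ * ‖(zetaPole w)⁻¹‖
      ≤ (8 * X ^ 2) * ‖w‖⁻¹ * Z * R := by
        rw [div_eq_mul_inv]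
        gcongr
        linarith
    _ ≤ (8 * X ^ 2) * (3 * (1 + |w.im|)⁻¹) * Z * R := by gcongr
    _ = _ := by ring

lemma phi_differentiableAt {X h : ℝ} (hX : 1 ≤ X) (hh : 0 < h) {w : ℂ} (h0 : 1 / 2 < w.re)
    (hz : zetaPole w ≠ 0) : DifferentiableAt ℂ (liouPhiR X (X + h)) w := by
  have hw0 : w ≠ 0 := by intro h; rw [h, zero_re] at h0; linarith
  have h2w : (2 * w) ≠ 1 := by
    intro h
    have := congrArg Complex.re h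
    simp at this
    linarith
  have hNc : ((X + h : ℝ) : ℂ) ≠ 0 := by
    have : (0 : ℝ) < X + h := by linarith
    exact_mod_cast this.ne'
  have hNc' : (X : ℂ) ≠ 0 := by
    have : (0 : ℝ) < X := by linarith
    exact_mod_cast this.ne'
  have d1 : DifferentiableAt ℂ (fun w : ℂ ↦ ((X + h : ℝ) : ℂ) ^ w) w :=
    differentiableAt_id.const_cpow (Or.inl hNc)
  have d2 : DifferentiableAt ℂ (fun w : ℂ ↦ (X : ℂ) ^ w) w :=
    differentiableAt_id.const_cpow (Or.inl hNc')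
  have d3 : DifferentiableAt ℂ (fun w : ℂ ↦ riemannZeta (2 * w)) w :=
    DifferentiableAt.comp w (differentiableAt_riemannZeta h2w) (by fun_prop)
  have d4 : DifferentiableAt ℂ (fun w : ℂ ↦ (zetaPole w)⁻¹) w :=
    (zetaPole_differentiable w).inv hz
  exact (((d1.sub d2).div differentiableAt_id hw0).mul d3).mul d4

end Pool.Agent.H48.UB
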