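import Mathlib

/-!
# Moving a line of integration to a staircase

PROOF.  Write `t k = t₀ + k`.  For each block `k < n`, Cauchy's theorem for the rectangle
`[a k, u] × [t k, t (k + 1)]` (`Complex.integral_boundary_rect_eq_zero_of_differentiableOn`, see
`rect_bound` in H6/LiouLoc for the manipulation) gives
`U k = L k + I * (A k - B k)`, where `U k = ∫ y in t k..t (k + 1), Ψ (u + y I)`,
`L k = ∫ y in t k..t (k + 1), Ψ (a k + y I)`, `A k = ∫ x in a k..u, Ψ (x + t k I)`,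
`B k = ∫ x in a k..u, Ψ (x + t (k + 1) I)`.  Summing,
`∫ y in t₀..(t₀ + n), Ψ (u + y I) = ∑ U k = ∑ L k + I * (A 0 - B (n - 1)) + I * ∑_{k < n - 1} (A (k + 1) - B k)`
and `A (k + 1) - B k = ∫ x in a (k + 1)..a k, Ψ (x + t (k + 1) I)` (additivity of interval integrals;
all integrands are continuous on the segments, by `hd` of block `k` or `k + 1`), of norm at most
`H k * |a (k + 1) - a k|`.
-/

set_option autoImplicit false

open Complex MeasureTheory Set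

namespace Pool.Agent.H48.UB

private lemma pre (x y : ℝ) : ((x : ℂ) + y * I).re = x := by simp

private lemma pim (x y : ℝ) : ((x : ℂ) + y * I).im = y := by simp

/-- Cauchy's theorem for one rectangle -/
private lemma one_rect {Ψ : ℂ → ℂ} {l u t t' : ℝ} (hlu : l ≤ u) (htt : t ≤ t')
    (hd : ∀ s : ℂ, l ≤ s.re → s.re ≤ u → t ≤ s.im → s.im ≤ t' → DifferentiableAt ℂ Ψ s) :
    (∫ y : ℝ in t..t', Ψ ((u : ℂ) + y * I)) = (∫ y : ℝ in t..t', Ψ ((l : ℂ) + y * I))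
      + I * ((∫ x : ℝ in l..u, Ψ ((x : ℂ) + (t : ℂ) * I))
        - (∫ x : ℝ in l..u, Ψ ((x : ℂ) + (t' : ℂ) * I))) := by
  have hrect :
      (∫ x : ℝ in l..u, Ψ ((x : ℂ) + (t : ℂ) * I))
        - (∫ x : ℝ in l..u, Ψ ((x : ℂ) + (t' : ℂ) * I))
        + I * (∫ y : ℝ in t..t', Ψ ((u : ℂ) + y * I))
        - I * (∫ y : ℝ in t..t', Ψ ((l : ℂ) + y * I)) = 0 := by
    have h := Complex.integral_boundary_rect_eq_zero_of_differentiableOn Ψ
      ((l : ℂ) + (t : ℂ) * I) ((u : ℂ) + (t' : ℂ) * I) ?_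
    · simpa only [pre, pim, smul_eq_mul] using h
    · intro s hs
      rw [pre, pre, pim, pim, uIcc_of_le hlu, uIcc_of_le htt, mem_reProdIm] at hs
      exact (hd s hs.1.1 hs.1.2 hs.2.1 hs.2.2).differentiableWithinAt
  have h4 : I * I = -1 := I_mul_I
  linear_combination (-I) * hrect + ((∫ y : ℝ in t..t', Ψ ((u : ℂ) + y * I)) -
    (∫ y : ℝ in t..t', Ψ ((l : ℂ) + y * I))) * h4

private lemma hor_int {Ψ : ℂ → ℂ} {l u t : ℝ} (hlu : l ≤ u)
    (hd : ∀ x : ℝ, l ≤ x → x ≤ u → DifferentiableAt ℂ Ψ ((x : ℂ) + (t : ℂ) * I)) :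
    IntervalIntegrable (fun x : ℝ => Ψ ((x : ℂ) + (t : ℂ) * I)) volume l u := by
  apply ContinuousOn.intervalIntegrable
  intro x hx
  rw [uIcc_of_le hlu] at hx
  have h1 : ContinuousAt Ψ ((x : ℂ) + (t : ℂ) * I) := (hd x hx.1 hx.2).continuousAt
  have h2 : ContinuousAt (fun x : ℝ => ((x : ℂ) + (t : ℂ) * I)) x := by fun_prop
  exact (ContinuousAt.comp (f := fun x : ℝ => ((x : ℂ) + (t : ℂ) * I)) h1 h2).continuousWithinAt

private lemma ver_int {Ψ : ℂ → ℂ} {l t t' : ℝ} (htt : t ≤ t')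
    (hd : ∀ y : ℝ, t ≤ y → y ≤ t' → DifferentiableAt ℂ Ψ ((l : ℂ) + (y : ℂ) * I)) :
    IntervalIntegrable (fun y : ℝ => Ψ ((l : ℂ) + (y : ℂ) * I)) volume t t' := by
  apply ContinuousOn.intervalIntegrable
  intro y hy
  rw [uIcc_of_le htt] at hy
  have h1 : ContinuousAt Ψ ((l : ℂ) + (y : ℂ) * I) := (hd y hy.1 hy.2).continuousAt
  have h2 : ContinuousAt (fun y : ℝ => ((l : ℂ) + (y : ℂ) * I)) y := by fun_prop
  exact (ContinuousAt.comp (f := fun y : ℝ => ((l : ℂ) + (y : ℂ) * I)) h1 h2).continuousWithinAt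

private lemma path_aux {Ψ : ℂ → ℂ} {u t₀ : ℝ} (a : ℕ → ℝ) (ha : ∀ k, a k ≤ u)
    {V H : ℕ → ℝ} (n : ℕ)
    (hd : ∀ k < n + 1, ∀ s : ℂ, a k ≤ s.re → s.re ≤ u → t₀ + k ≤ s.im → s.im ≤ t₀ + k + 1 →
      DifferentiableAt ℂ Ψ s)
    (hV : ∀ k < n + 1, ∀ y : ℝ, t₀ + k ≤ y → y ≤ t₀ + k + 1 → ‖Ψ ((a k : ℂ) + y * I)‖ ≤ V k)
    (hH : ∀ k : ℕ, k + 1 < n + 1 → ∀ x : ℝ, min (a k) (a (k + 1)) ≤ x → x ≤ max (a k) (a (k + 1)) →
      ‖Ψ ((x : ℂ) + ((t₀ + (k + 1) : ℝ) : ℂ) * I)‖ ≤ H k) :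
    IntervalIntegrable (fun y : ℝ => Ψ ((u : ℂ) + (y : ℂ) * I)) volume t₀ (t₀ + n + 1) ∧
    ∃ W : ℂ, ‖W‖ ≤ ∑ k ∈ Finset.range (n + 1), V k + ∑ k ∈ Finset.range n, H k * |a (k + 1) - a k| ∧
      (∫ y : ℝ in t₀..(t₀ + n + 1), Ψ ((u : ℂ) + y * I)) = W +
        I * ((∫ x : ℝ in (a 0)..u, Ψ ((x : ℂ) + (t₀ : ℂ) * I))
          - (∫ x : ℝ in (a n)..u, Ψ ((x : ℂ) + ((t₀ + n + 1 : ℝ) : ℂ) * I))) := by
  induction n with
  | zero =>
    have h0 := one_rect (Ψ := Ψ) (l := a 0) (u := u) (t := t₀) (t' := t₀ + 1) (ha 0) (by linarith)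
      (fun s h1 h2 h3 h4 => hd 0 (by norm_num) s h1 h2 (by simpa using h3) (by simpa using h4))
    have e0 : t₀ + ((0 : ℕ) : ℝ) + 1 = t₀ + 1 := by simp
    rw [e0]
    refine ⟨ver_int (by linarith) fun y h1 h2 => hd 0 (by norm_num) _ (by rw [pre]; exact ha 0)
      (by rw [pre]) (by rw [pim]; simpa using h1) (by rw [pim]; simpa using h2), _, ?_, h0⟩
    have h1 := intervalIntegral.norm_integral_le_of_norm_le_const (a := t₀) (b := t₀ + 1) (C := V 0)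
      (f := fun y : ℝ => Ψ ((a 0 : ℂ) + (y : ℂ) * I)) (fun y hy => by
        rw [uIoc_of_le (by linarith)] at hy
        exact hV 0 (by norm_num) y (by simpa using hy.1.le) (by simpa using hy.2))
    simpa using h1
  | succ n ih =>
    obtain ⟨hi, W, hW, hWe⟩ := ih (fun k hk => hd k (by omega)) (fun k hk => hV k (by omega))
      (fun k hk => hH k (by omega))
    have hc : t₀ + ((n + 1 : ℕ) : ℝ) = t₀ + n + 1 := by push_cast; ring
    have hd1 := hd (n + 1) (by omega)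
    have hV1 := hV (n + 1) (by omega)
    have hd0 := hd n (by omega)
    rw [hc] at hd1 hV1 ⊢
    have hver : IntervalIntegrable (fun y : ℝ => Ψ ((u : ℂ) + (y : ℂ) * I)) volume (t₀ + n + 1)
        (t₀ + n + 1 + 1) := ver_int (by linarith) fun y h1 h2 => hd1 _ (by rw [pre]; exact ha _)
      (by rw [pre]) (by rw [pim]; exact h1) (by rw [pim]; exact h2)
    have h0 := one_rect (Ψ := Ψ) (l := a (n + 1)) (u := u) (t := t₀ + n + 1) (t' := t₀ + n + 1 + 1)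
      (ha _) (by linarith) hd1
    refine ⟨hi.trans hver, W + (∫ y : ℝ in (t₀ + n + 1)..(t₀ + n + 1 + 1),
      Ψ ((a (n + 1) : ℂ) + y * I)) + I * ((∫ x : ℝ in (a (n + 1))..u,
        Ψ ((x : ℂ) + ((t₀ + n + 1 : ℝ) : ℂ) * I)) -
        (∫ x : ℝ in (a n)..u, Ψ ((x : ℂ) + ((t₀ + n + 1 : ℝ) : ℂ) * I))), ?_, ?_⟩
    · have h1 := intervalIntegral.norm_integral_le_of_norm_le_const (a := t₀ + n + 1)
        (b := t₀ + n + 1 + 1) (C := V (n + 1))
        (f := fun y : ℝ => Ψ ((a (n + 1) : ℂ) + (y : ℂ) * I)) (fun y hy => by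
          rw [uIoc_of_le (by linarith)] at hy
          exact hV1 y hy.1.le hy.2)
      have e1 : |t₀ + (n : ℝ) + 1 + 1 - (t₀ + n + 1)| = 1 := by
        rw [show t₀ + (n : ℝ) + 1 + 1 - (t₀ + n + 1) = 1 by ring]; simp
      rw [e1, mul_one] at h1
      have i1 : IntervalIntegrable (fun x : ℝ => Ψ ((x : ℂ) + ((t₀ + n + 1 : ℝ) : ℂ) * I))
          volume (a (n + 1)) u := hor_int (ha _) fun x h1 h2 => hd1 _ (by rw [pre]; exact h1)
        (by rw [pre]; exact h2) (by rw [pim]) (by rw [pim]; linarith)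
      have i2 : IntervalIntegrable (fun x : ℝ => Ψ ((x : ℂ) + ((t₀ + n + 1 : ℝ) : ℂ) * I))
          volume (a n) u := hor_int (ha _) fun x h1 h2 => hd0 _ (by rw [pre]; exact h1)
        (by rw [pre]; exact h2) (by rw [pim]; linarith) (by rw [pim])
      have h2 : (∫ x : ℝ in (a (n + 1))..u, Ψ ((x : ℂ) + ((t₀ + n + 1 : ℝ) : ℂ) * I)) -
          (∫ x : ℝ in (a n)..u, Ψ ((x : ℂ) + ((t₀ + n + 1 : ℝ) : ℂ) * I)) =
          ∫ x : ℝ in (a (n + 1))..(a n), Ψ ((x : ℂ) + ((t₀ + n + 1 : ℝ) : ℂ) * I) := by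
        rw [← intervalIntegral.integral_add_adjacent_intervals (i1.trans i2.symm) i2]
        ring
      rw [h2]
      have hH1 := hH n (by omega)
      have h3 := intervalIntegral.norm_integral_le_of_norm_le_const (a := a (n + 1))
        (b := a n) (C := H n)
        (f := fun x : ℝ => Ψ ((x : ℂ) + ((t₀ + n + 1 : ℝ) : ℂ) * I)) (fun x hx => by
          rw [mem_uIoc] at hx
          have h4 := hH1 x (by
            rcases hx with hx | hx
            · exact (min_le_right _ _).trans hx.1.le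
            · exact (min_le_left _ _).trans hx.1.le) (by
            rcases hx with hx | hx
            · exact hx.2.trans (le_max_left _ _)
            · exact hx.2.trans (le_max_right _ _))
          rwa [show t₀ + ((n : ℝ) + 1) = t₀ + n + 1 by ring] at h4)
      rw [Finset.sum_range_succ (fun k => V k) (n + 1),
        Finset.sum_range_succ (fun k => H k * |a (k + 1) - a k|) n]
      rw [abs_sub_comm] at h3
      refine (norm_add_le _ _).trans ?_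
      rw [norm_mul, norm_I, one_mul]
      have h5 := norm_add_le W (∫ y : ℝ in (t₀ + n + 1)..(t₀ + n + 1 + 1),
        Ψ ((a (n + 1) : ℂ) + y * I))
      linarith
    · rw [← intervalIntegral.integral_add_adjacent_intervals hi hver, hWe, h0]
      ring

theorem path_bound {Ψ : ℂ → ℂ} {u t₀ : ℝ} {n : ℕ} (hn : 1 ≤ n) (a : ℕ → ℝ) (ha : ∀ k, a k ≤ u)
    (hd : ∀ k < n, ∀ s : ℂ, a k ≤ s.re → s.re ≤ u → t₀ + k ≤ s.im → s.im ≤ t₀ + k + 1 →
      DifferentiableAt ℂ Ψ s)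
    {V H : ℕ → ℝ} {E : ℝ}
    (hV : ∀ k < n, ∀ y : ℝ, t₀ + k ≤ y → y ≤ t₀ + k + 1 → ‖Ψ ((a k : ℂ) + y * I)‖ ≤ V k)
    (hH : ∀ k : ℕ, k + 1 < n → ∀ x : ℝ, min (a k) (a (k + 1)) ≤ x → x ≤ max (a k) (a (k + 1)) →
      ‖Ψ ((x : ℂ) + ((t₀ + (k + 1) : ℝ) : ℂ) * I)‖ ≤ H k)
    (hE : ∀ x : ℝ, a 0 ≤ x → x ≤ u → ‖Ψ ((x : ℂ) + (t₀ : ℂ) * I)‖ ≤ E)
    (hE' : ∀ x : ℝ, a (n - 1) ≤ x → x ≤ u → ‖Ψ ((x : ℂ) + ((t₀ + n : ℝ) : ℂ) * I)‖ ≤ E) :
    ‖∫ y : ℝ in t₀..(t₀ + n), Ψ ((u : ℂ) + y * I)‖ ≤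
      ∑ k ∈ Finset.range n, V k + ∑ k ∈ Finset.range (n - 1), H k * |a (k + 1) - a k|
        + E * (u - a 0) + E * (u - a (n - 1)) := by
  obtain ⟨m, rfl⟩ : ∃ m, n = m + 1 := ⟨n - 1, by omega⟩
  obtain ⟨-, W, hW, hWe⟩ := path_aux (Ψ := Ψ) (u := u) (t₀ := t₀) a ha (V := V) (H := H) m hd hV hH
  have hc : t₀ + ((m + 1 : ℕ) : ℝ) = t₀ + m + 1 := by push_cast; ring
  rw [Nat.add_sub_cancel] at hE' ⊢
  rw [hc] at hE' ⊢
  rw [hWe]
  have h1 := intervalIntegral.norm_integral_le_of_norm_le_const (a := a 0) (b := u) (C := E)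
    (f := fun x : ℝ => Ψ ((x : ℂ) + (t₀ : ℂ) * I)) (fun x hx => by
      rw [uIoc_of_le (ha 0)] at hx
      exact hE x hx.1.le hx.2)
  have h2 := intervalIntegral.norm_integral_le_of_norm_le_const (a := a m) (b := u) (C := E)
    (f := fun x : ℝ => Ψ ((x : ℂ) + ((t₀ + m + 1 : ℝ) : ℂ) * I)) (fun x hx => by
      rw [uIoc_of_le (ha m)] at hx
      exact hE' x hx.1.le hx.2)
  rw [abs_of_nonneg (by linarith [ha 0])] at h1
  rw [abs_of_nonneg (by linarith [ha m])] at h2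
  refine (norm_add_le _ _).trans ?_
  rw [norm_mul, norm_I, one_mul]
  have h3 := norm_sub_le (∫ x : ℝ in (a 0)..u, Ψ ((x : ℂ) + (t₀ : ℂ) * I))
    (∫ x : ℝ in (a m)..u, Ψ ((x : ℂ) + ((t₀ + m + 1 : ℝ) : ℂ) * I))
  linarith

end Pool.Agent.H48.UB
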