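import Mathlib
import Pool.Agent.H48.UP.Omega
import Pool.Agent.H48.UP.Comp
import Pool.Agent.H6.LiouvilleSum

/-!
# The upper bound for `λ` when the zeros stay away from `re s = 1`
-/

set_option autoImplicit false

open Complex Filter Topology Set

namespace Pool.Agent.H48.UB

open Pool.Agent.H6 Pool.Agent.H48.UP

lemma norm_sum_liou (N : ℕ) : ‖∑ n ∈ Finset.Icc 1 N, liouCoeff n‖ = |Sl N| := by
  rw [← Real.norm_eq_abs, ← norm_real]
  congr 1
  simp only [Sl, lsum, lamR]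
  push_cast
  rfl

theorem upper_small (h : ∃ e : ℝ, 0 < e ∧ ∀ r ∈ Zer, r.re ≤ 1 - e) {ε : ℝ} (hε : 0 < ε)
    (hε1 : ε < 1) :
    ∃ x₀ : ℕ, ∀ x : ℕ, x₀ ≤ x → |Sl x| ≤ Real.exp (-(1 - ε) * om x) := by
  obtain ⟨e, he, hz⟩ := h
  obtain ⟨rh, hrh, hrh2⟩ := zer_half
  set K := sInf ((fun r : ℂ ↦ 1 - r.re) '' Zer) with hK
  have hbd : BddBelow ((fun r : ℂ ↦ 1 - r.re) '' Zer) := by
    refine ⟨0, ?_⟩
    rintro _ ⟨r, hr, rfl⟩
    have := hr.2.2
    simp only
    linarith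
  have hne : ((fun r : ℂ ↦ 1 - r.re) '' Zer).Nonempty := ⟨_, rh, hrh, rfl⟩
  have hKe : e ≤ K := by
    refine le_csInf hne ?_
    rintro _ ⟨r, hr, rfl⟩
    have := hz r hr
    simp only
    linarith
  have hKle : ∀ r ∈ Zer, K ≤ 1 - r.re := fun r hr => csInf_le hbd ⟨r, hr, rfl⟩
  have hK0 : 0 < K := by linarith
  have hK2 : K ≤ 1 / 2 := by
    have := hKle rh hrh
    linarith
  have hZ : ∀ s : ℂ, 1 - K < s.re → riemannZeta s ≠ 0 := by
    intro s hs h0
    rcases le_or_gt 1 s.re with h1 | h1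
    · exact riemannZeta_ne_zero_of_one_le_re h1 h0
    · have := hKle s ⟨h0, by linarith, h1⟩
      linarith
  set e1 : ℝ := ε * K / 4 with he1
  have he1p : 0 < e1 := by positivity
  obtain ⟨C, hC⟩ := liouville_logSum_bound (θ := 1 - K) (by linarith) (by linarith) hZ he1p
  obtain ⟨_, ⟨r0, hr0, rfl⟩, hr0'⟩ := Real.lt_sInf_add_pos hne he1p
  have hr0d : 1 - r0.re < K + e1 := hr0'
  set C0 : ℝ := Real.log (1 + |r0.im|) with hC0
  have hC0nn : 0 ≤ C0 := Real.log_nonneg (by linarith [abs_nonneg r0.im])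
  set A : ℝ := max C 1 with hA
  have hA1 : 1 ≤ A := le_max_right _ _
  have hlogA : 0 ≤ Real.log A := Real.log_nonneg hA1
  have hev : ∀ᶠ x : ℕ in atTop, 1 ≤ x ∧ (Real.log A + C0) / (K * ε / 2) ≤ Real.log x := by
    have h1 : Tendsto (fun x : ℕ ↦ Real.log x) atTop atTop :=
      Real.tendsto_log_atTop.comp tendsto_natCast_atTop_atTop
    filter_upwards [eventually_ge_atTop 1, h1.eventually_ge_atTop ((Real.log A + C0) / (K * ε / 2))]
      with x h2 h3
    exact ⟨h2, h3⟩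
  obtain ⟨x₀, hx₀⟩ := eventually_atTop.1 hev
  refine ⟨x₀, fun x hx ↦ ?_⟩
  obtain ⟨hx1, hxl⟩ := hx₀ x hx
  have hxr : (1 : ℝ) ≤ x := by exact_mod_cast hx1
  have hxp : (0 : ℝ) < x := by linarith
  have hL : 0 ≤ Real.log x := Real.log_nonneg hxr
  have h1 := hC x hx1
  rw [norm_sum_liou] at h1
  have h2 : |Sl x| ≤ A * (x : ℝ) ^ (-K + e1) := by
    refine h1.trans ?_
    rw [show 1 - K - 1 + e1 = -K + e1 by ring]
    gcongr
    exact le_max_left _ _
  have h3 : A * (x : ℝ) ^ (-K + e1) = Real.exp (Real.log A - (K - e1) * Real.log x) := by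
    rw [sub_eq_add_neg, Real.exp_add, Real.exp_log (by linarith), Real.rpow_def_of_pos hxp]
    congr 2
    ring
  rw [h3] at h2
  refine h2.trans (Real.exp_le_exp.2 ?_)
  have h4 := om_le hxr hr0
  have h5 : om x ≤ (K + e1) * Real.log x + C0 := by
    refine h4.trans ?_
    gcongr
  have h6 : (1 - ε) * om x ≤ (1 - ε) * ((K + e1) * Real.log x + C0) := by
    have : 0 ≤ 1 - ε := by linarith
    gcongr
  have h7 : (1 - ε) * C0 ≤ C0 := by nlinarith
  have h8 : Real.log A + C0 ≤ K * ε / 2 * Real.log x := by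
    rw [div_le_iff₀ (by positivity)] at hxl
    linarith
  have h9 : (1 - ε) * (K + e1) + K * ε / 2 ≤ K - e1 := by
    rw [he1]
    nlinarith [mul_pos hε hK0, mul_pos (mul_pos hε hε) hK0]
  have h10 : ((1 - ε) * (K + e1) + K * ε / 2) * Real.log x ≤ (K - e1) * Real.log x := by
    gcongr
  nlinarith

end Pool.Agent.H48.UB
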