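import Mathlib
import Pool.Agent.H48.UB.KernB
import Pool.Agent.H48.UB.InvB
import Pool.Agent.H48.UB.Eta
import Pool.Agent.H48.UB.Count
import Pool.Agent.H48.UB.Path
import Pool.Agent.H48.UB.Small

/-!
# The upper bound for the logarithmic sums of `λ`
-/

set_option autoImplicit false

open Complex Filter Topology MeasureTheory Set LSeries

namespace Pool.Agent.H48.UB

open Pool.Agent.H6 Pool.Agent.H48.UP

/-- data: distances of the nearby zeros, and bounds for `1 / ζ` -/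
structure Dat (κ δ τ C : ℝ) (η : ℤ → ℝ) : Prop where
  pos : ∀ j, 0 < η j ∧ η j ≤ κ
  free : ∀ (j : ℤ) (u : ℂ), zetaPole u = 0 → (j : ℝ) - 1 ≤ u.im → u.im ≤ j + 2 → u.re ≤ 1 - η j
  inv : ∀ (j : ℤ) (x y : ℝ), (j : ℝ) ≤ y → y ≤ j + 1 → 1 - (1 - δ) * η j ≤ x → x ≤ 2 →
    ‖(zetaPole ((x : ℂ) + y * I))⁻¹‖ ≤ C * (1 + |y|) ^ (τ / 2 - 1)

lemma exists_dat {δ τ : ℝ} (hδ : 0 < δ) (hδ1 : δ < 1) (hτ : 0 < τ) :
    ∃ κ₀ : ℝ, 0 < κ₀ ∧ κ₀ ≤ 1 / 4 ∧ ∀ κ : ℝ, 0 < κ → κ ≤ κ₀ → ∃ (C : ℝ) (η : ℤ → ℝ), 0 < C ∧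
      Dat κ δ τ C η ∧
      ∀ j : ℤ, η j = κ ∨
        ((∃ u : ℂ, zetaPole u = 0 ∧ (j : ℝ) - 1 ≤ u.im ∧ u.im ≤ j + 2 ∧ 1 - κ < u.re) ∧
          ∀ x : ℝ, 1 ≤ x → om x - Real.log (3 + |(j : ℝ)|) ≤ η j * Real.log x) := by
  obtain ⟨κ₀, h1, h2, h3⟩ := inv_local (e := τ / 2) (δ := δ) (by positivity) hδ hδ1
  refine ⟨κ₀, h1, h2, fun κ hκ hκ1 ↦ ?_⟩
  obtain ⟨c, hc, η, g1, g2, g3, g4⟩ := exists_eta hκ (hκ1.trans h2)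
  obtain ⟨C, hC, h4⟩ := h3 c hc
  refine ⟨C, η, hC, ⟨g1, g3, ?_⟩, g4⟩
  intro j x y hy1 hy2 hx1 hx2
  refine h4 (η j) y (g1 j).1 ((g1 j).2.trans hκ1) (g2 j y hy1 hy2) (fun u hu hy ↦ ?_) x hx1 hx2
  rw [abs_le] at hy
  exact g3 j u hu (by linarith) (by linarith)

lemma three_add_le {j : ℤ} {y : ℝ} (h1 : (j : ℝ) ≤ y) (h2 : y ≤ j + 1) :
    3 + |(j : ℝ)| ≤ 4 * (1 + |y|) := by
  rcases eq_or_ne j 0 with rfl | hj
  · simp only [Int.cast_zero, abs_zero, add_zero]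
    linarith [abs_nonneg y]
  · have h3 : (1 : ℝ) ≤ |(j : ℝ)| := by
      have := Int.one_le_abs hj
      exact_mod_cast this
    have h4 : |(j : ℝ)| ≤ |y| + 1 := by
      rw [abs_le]
      constructor
      · linarith [neg_abs_le y]
      · linarith [le_abs_self y, abs_nonneg y]
    linarith

section

variable {κ δ τ C : ℝ} {η : ℤ → ℝ}

lemma a_mem (D : Dat κ δ τ C η) (hκ : κ ≤ 1 / 4) (hδ : 0 < δ) (hδ1 : δ < 1) (j : ℤ) :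
    3 / 4 ≤ 1 - (1 - δ) * η j ∧ 1 - (1 - δ) * η j ≤ 1 ∧ 1 - η j < 1 - (1 - δ) * η j := by
  obtain ⟨h1, h2⟩ := D.pos j
  have h3 : 0 < δ * η j := by positivity
  have h4 : 0 < (1 - δ) * η j := mul_pos (by linarith) h1
  refine ⟨by nlinarith, by linarith, by nlinarith⟩

lemma phi_block (D : Dat κ δ τ C η) (hC : 0 < C) (hκ : κ ≤ 1 / 4) (hδ : 0 < δ) (hδ1 : δ < 1)
    (hτ : 0 < τ) (hτ1 : τ ≤ 1 / 2) {Z : ℝ}
    (hZ : ∀ w : ℂ, 3 / 4 ≤ w.re → ‖riemannZeta (2 * w)‖ ≤ Z) {X h : ℝ} (hX : 1 ≤ X) (hh : 0 < h)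
    (hhX : h ≤ X) (j : ℤ) {x y : ℝ} (hy1 : (j : ℝ) ≤ y) (hy2 : y ≤ j + 1)
    (hx1 : 1 - (1 - δ) * η j ≤ x) (hx2 : x ≤ 1) :
    ‖liouPhiR X (X + h) ((x : ℂ) + y * I)‖ ≤
      384 * Z * C * (h * (X / h) ^ τ) * (X ^ (x - 1) * (3 + |(j : ℝ)|) ^ (-(1 + τ / 2))) := by
  obtain ⟨a1, a2, a3⟩ := a_mem D hκ hδ hδ1 j
  have hXp : 0 < X := by linarith
  have hre : ((x : ℂ) + y * I).re = x := by simp
  have him : ((x : ℂ) + y * I).im = y := by simp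
  have hZw := hZ ((x : ℂ) + y * I) (by rw [hre]; linarith)
  have hZ0 : 0 ≤ Z := (norm_nonneg _).trans hZw
  have h1 := phi_le hX hh hhX hτ (by linarith) (w := (x : ℂ) + y * I) (by rw [hre]; linarith)
    (by rw [hre]; exact hx2) hZw (D.inv j x y hy1 hy2 hx1 (by linarith))
  rw [hre, him] at h1
  have hpos : 0 < 1 + |y| := by linarith [abs_nonneg y]
  have hpos2 : 0 < 3 + |(j : ℝ)| := by linarith [abs_nonneg (j : ℝ)]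
  have h2 : (1 + |y|) ^ (-τ) * (1 + |y|) ^ (τ / 2 - 1) = (1 + |y|) ^ (-(1 + τ / 2)) := by
    rw [← Real.rpow_add hpos]
    congr 1
    ring
  have h3 : (1 + |y|) ^ (-(1 + τ / 2)) ≤ 16 * (3 + |(j : ℝ)|) ^ (-(1 + τ / 2)) := by
    have f1 : (3 + |(j : ℝ)|) / 4 ≤ 1 + |y| := by
      have := three_add_le hy1 hy2
      linarith
    have f2 : (1 + |y|) ^ (-(1 + τ / 2)) ≤ ((3 + |(j : ℝ)|) / 4) ^ (-(1 + τ / 2)) :=
      Real.rpow_le_rpow_of_nonpos (by positivity) f1 (by linarith)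
    refine f2.trans ?_
    rw [Real.div_rpow hpos2.le (by norm_num), Real.rpow_neg (by norm_num : (0:ℝ) ≤ 4),
      div_inv_eq_mul, mul_comm]
    gcongr
    calc (4 : ℝ) ^ (1 + τ / 2) ≤ 4 ^ (2 : ℝ) :=
          Real.rpow_le_rpow_of_exponent_le (by norm_num) (by linarith)
      _ = 16 := by norm_num
  have hP : 0 ≤ h * (X / h) ^ τ := by positivity
  have hXx : 0 ≤ X ^ (x - 1) := by positivity
  calc _ ≤ 24 * (h * (X / h) ^ τ) * X ^ (x - 1) * (1 + |y|) ^ (-τ) * Z *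
        (C * (1 + |y|) ^ (τ / 2 - 1)) := h1
    _ = 24 * Z * C * (h * (X / h) ^ τ) * X ^ (x - 1) *
        ((1 + |y|) ^ (-τ) * (1 + |y|) ^ (τ / 2 - 1)) := by ring
    _ = 24 * Z * C * (h * (X / h) ^ τ) * X ^ (x - 1) * (1 + |y|) ^ (-(1 + τ / 2)) := by rw [h2]
    _ ≤ 24 * Z * C * (h * (X / h) ^ τ) * X ^ (x - 1) *
        (16 * (3 + |(j : ℝ)|) ^ (-(1 + τ / 2))) := by gcongr
    _ = _ := by ring

/-- the block weights -/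
noncomputable def Bd (δ τ : ℝ) (η : ℤ → ℝ) (X : ℝ) (j : ℤ) : ℝ :=
  X ^ (-(1 - δ) * η j) * (3 + |(j : ℝ)|) ^ (-(1 + τ / 2))

lemma Bd_nonneg {X : ℝ} (hX : 1 ≤ X) (j : ℤ) : 0 ≤ Bd δ τ η X j := by
  unfold Bd
  have : 0 < X := by linarith
  positivity

lemma q_step (hτ : 0 < τ) (hτ1 : τ ≤ 1 / 2) {i j : ℤ} (h : |(i : ℝ) - j| ≤ 1) :
    (3 + |(i : ℝ)|) ^ (-(1 + τ / 2)) ≤ 4 * (3 + |(j : ℝ)|) ^ (-(1 + τ / 2)) := by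
  have hpi : 0 < 3 + |(i : ℝ)| := by linarith [abs_nonneg (i : ℝ)]
  have hpj : 0 < 3 + |(j : ℝ)| := by linarith [abs_nonneg (j : ℝ)]
  have h1 : |(j : ℝ)| ≤ |(i : ℝ)| + 1 := by
    have := abs_sub_abs_le_abs_sub (j : ℝ) i
    rw [abs_sub_comm] at h
    linarith
  have f1 : (3 + |(j : ℝ)|) / 2 ≤ 3 + |(i : ℝ)| := by linarith [abs_nonneg (i : ℝ)]
  have f2 : (3 + |(i : ℝ)|) ^ (-(1 + τ / 2)) ≤ ((3 + |(j : ℝ)|) / 2) ^ (-(1 + τ / 2)) :=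
    Real.rpow_le_rpow_of_nonpos (by positivity) f1 (by linarith)
  refine f2.trans ?_
  rw [Real.div_rpow hpj.le (by norm_num), Real.rpow_neg (by norm_num : (0:ℝ) ≤ 2),
    div_inv_eq_mul, mul_comm]
  gcongr
  calc (2 : ℝ) ^ (1 + τ / 2) ≤ 2 ^ (2 : ℝ) :=
        Real.rpow_le_rpow_of_exponent_le (by norm_num) (by linarith)
    _ = 4 := by norm_num

lemma phi_vert (D : Dat κ δ τ C η) (hC : 0 < C) (hκ : κ ≤ 1 / 4) (hδ : 0 < δ) (hδ1 : δ < 1)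
    (hτ : 0 < τ) (hτ1 : τ ≤ 1 / 2) {Z : ℝ}
    (hZ : ∀ w : ℂ, 3 / 4 ≤ w.re → ‖riemannZeta (2 * w)‖ ≤ Z) {X h : ℝ} (hX : 1 ≤ X) (hh : 0 < h)
    (hhX : h ≤ X) (j : ℤ) {y : ℝ} (hy1 : (j : ℝ) ≤ y) (hy2 : y ≤ j + 1) :
    ‖liouPhiR X (X + h) (((1 - (1 - δ) * η j : ℝ) : ℂ) + y * I)‖ ≤
      384 * Z * C * (h * (X / h) ^ τ) * Bd δ τ η X j := by
  obtain ⟨a1, a2, a3⟩ := a_mem D hκ hδ hδ1 j
  have h1 := phi_block D hC hκ hδ hδ1 hτ hτ1 hZ hX hh hhX j hy1 hy2 le_rfl a2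
  refine h1.trans (le_of_eq ?_)
  rw [Bd]
  congr 3
  ring

lemma phi_hor (D : Dat κ δ τ C η) (hC : 0 < C) (hκ : κ ≤ 1 / 4) (hδ : 0 < δ) (hδ1 : δ < 1)
    (hτ : 0 < τ) (hτ1 : τ ≤ 1 / 2) {Z : ℝ}
    (hZ : ∀ w : ℂ, 3 / 4 ≤ w.re → ‖riemannZeta (2 * w)‖ ≤ Z) {X h : ℝ} (hX : 1 ≤ X) (hh : 0 < h)
    (hhX : h ≤ X) (j : ℤ) {x : ℝ}
    (hx1 : min (1 - (1 - δ) * η j) (1 - (1 - δ) * η (j + 1)) ≤ x)
    (hx2 : x ≤ max (1 - (1 - δ) * η j) (1 - (1 - δ) * η (j + 1))) :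
    ‖liouPhiR X (X + h) ((x : ℂ) + ((j + 1 : ℝ) : ℂ) * I)‖ ≤
      384 * Z * C * (h * (X / h) ^ τ) * (4 * (Bd δ τ η X j + Bd δ τ η X (j + 1))) := by
  obtain ⟨a1, a2, a3⟩ := a_mem D hκ hδ hδ1 j
  obtain ⟨b1, b2, b3⟩ := a_mem D hκ hδ hδ1 (j + 1)
  have hXp : 0 < X := by linarith
  have hZ0 : 0 ≤ Z := (norm_nonneg _).trans (hZ 1 (by norm_num))
  have hP : 0 ≤ 384 * Z * C * (h * (X / h) ^ τ) := by positivity
  have hxle : x ≤ 1 := hx2.trans (max_le a2 b2)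
  have q1 := q_step (τ := τ) hτ hτ1 (i := j) (j := j + 1) (by push_cast; simp)
  have q2 := q_step (τ := τ) hτ hτ1 (i := j + 1) (j := j) (by push_cast; simp)
  have hq1 : 0 ≤ (3 + |(j : ℝ)|) ^ (-(1 + τ / 2)) := by positivity
  have hq2 : 0 ≤ (3 + |((j + 1 : ℤ) : ℝ)|) ^ (-(1 + τ / 2)) := by positivity
  have hB1 := Bd_nonneg (δ := δ) (τ := τ) (η := η) hX j
  have hB2 := Bd_nonneg (δ := δ) (τ := τ) (η := η) hX (j + 1)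
  -- both weights control `X ^ (x - 1)`
  have key : ∀ q : ℝ, 0 ≤ q → q ≤ 4 * (3 + |(j : ℝ)|) ^ (-(1 + τ / 2)) →
      q ≤ 4 * (3 + |((j + 1 : ℤ) : ℝ)|) ^ (-(1 + τ / 2)) →
      X ^ (x - 1) * q ≤ 4 * (Bd δ τ η X j + Bd δ τ η X (j + 1)) := by
    intro q hq0 hqa hqb
    rcases le_max_iff.1 hx2 with h1 | h1
    · have h2 : X ^ (x - 1) ≤ X ^ (-(1 - δ) * η j) :=
        Real.rpow_le_rpow_of_exponent_le hX (by linarith)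
      calc X ^ (x - 1) * q ≤ X ^ (-(1 - δ) * η j) * (4 * (3 + |(j : ℝ)|) ^ (-(1 + τ / 2))) := by
            gcongr
        _ = 4 * Bd δ τ η X j := by rw [Bd]; ring
        _ ≤ _ := by linarith
    · have h2 : X ^ (x - 1) ≤ X ^ (-(1 - δ) * η (j + 1)) :=
        Real.rpow_le_rpow_of_exponent_le hX (by linarith)
      calc X ^ (x - 1) * q
          ≤ X ^ (-(1 - δ) * η (j + 1)) * (4 * (3 + |((j + 1 : ℤ) : ℝ)|) ^ (-(1 + τ / 2))) := by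
            gcongr
        _ = 4 * Bd δ τ η X (j + 1) := by rw [Bd]; ring
        _ ≤ _ := by linarith
  rcases min_le_iff.1 hx1 with h1 | h1
  · have h2 := phi_block D hC hκ hδ hδ1 hτ hτ1 hZ hX hh hhX j (y := (j : ℝ) + 1) (by linarith)
      le_rfl h1 hxle
    exact h2.trans (mul_le_mul_of_nonneg_left (key _ hq1 (by linarith) q1) hP)
  · have h2 := phi_block D hC hκ hδ hδ1 hτ hτ1 hZ hX hh hhX (j + 1) (y := (j : ℝ) + 1)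
      (by push_cast; linarith) (by push_cast; linarith) h1 hxle
    exact h2.trans (mul_le_mul_of_nonneg_left (key _ hq2 q2 (by linarith)) hP)

/-- the crude bound, all heights -/
lemma phi_crude (D : Dat κ δ τ C η) (hC : 0 < C) (hκ : κ ≤ 1 / 4) (hδ : 0 < δ) (hδ1 : δ < 1)
    (hτ1 : τ ≤ 1 / 2) {Z : ℝ}
    (hZ : ∀ w : ℂ, 3 / 4 ≤ w.re → ‖riemannZeta (2 * w)‖ ≤ Z) {X h : ℝ} (hX : 1 ≤ X) (hh : 0 < h)
    (hhX : h ≤ X) (j : ℤ) {x y : ℝ} (hy1 : (j : ℝ) ≤ y) (hy2 : y ≤ j + 1)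
    (hx1 : 1 - (1 - δ) * η j ≤ x) (hx2 : x ≤ 2) :
    ‖liouPhiR X (X + h) ((x : ℂ) + y * I)‖ ≤ 24 * Z * C * X ^ 2 * (1 + |y|) ^ (-(7 / 4 : ℝ)) := by
  obtain ⟨a1, a2, a3⟩ := a_mem D hκ hδ hδ1 j
  have hXp : 0 < X := by linarith
  have hre : ((x : ℂ) + y * I).re = x := by simp
  have him : ((x : ℂ) + y * I).im = y := by simp
  have hZw := hZ ((x : ℂ) + y * I) (by rw [hre]; linarith)
  have hZ0 : 0 ≤ Z := (norm_nonneg _).trans hZw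
  have hpos : 0 < 1 + |y| := by linarith [abs_nonneg y]
  have hone : 1 ≤ 1 + |y| := by linarith [abs_nonneg y]
  have h1 := phi_le' hX hh hhX (w := (x : ℂ) + y * I) (by rw [hre]; linarith)
    (by rw [hre]; exact hx2) hZw (D.inv j x y hy1 hy2 hx1 hx2)
  rw [him] at h1
  have h2 : (1 + |y|)⁻¹ * (1 + |y|) ^ (τ / 2 - 1) ≤ (1 + |y|) ^ (-(7 / 4 : ℝ)) := by
    rw [← Real.rpow_neg_one, ← Real.rpow_add hpos]
    exact Real.rpow_le_rpow_of_exponent_le hone (by linarith)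
  calc _ ≤ 24 * X ^ 2 * (1 + |y|)⁻¹ * Z * (C * (1 + |y|) ^ (τ / 2 - 1)) := h1
    _ = 24 * Z * C * X ^ 2 * ((1 + |y|)⁻¹ * (1 + |y|) ^ (τ / 2 - 1)) := by ring
    _ ≤ _ := by gcongr

lemma zp_ne (D : Dat κ δ τ C η) (hκ : κ ≤ 1 / 4) (hδ : 0 < δ) (hδ1 : δ < 1) (j : ℤ) {s : ℂ}
    (h1 : 1 - (1 - δ) * η j ≤ s.re) (h2 : (j : ℝ) ≤ s.im) (h3 : s.im ≤ j + 1) :
    zetaPole s ≠ 0 := by
  intro h0
  obtain ⟨a1, a2, a3⟩ := a_mem D hκ hδ hδ1 j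
  have := D.free j s h0 (by linarith) (by linarith)
  linarith

end

end Pool.Agent.H48.UB
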