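import Mathlib
import Pool.Agent.H48.UB.Upper

/-!
# The upper bound for the logarithmic sums of `λ`: the integral
-/

set_option autoImplicit false

open Complex Filter Topology MeasureTheory Set LSeries

namespace Pool.Agent.H48.UB

open Pool.Agent.H6 Pool.Agent.H48.UP

section

variable {κ δ τ C : ℝ} {η : ℤ → ℝ}

lemma sum_shift {S X : ℝ} (hS : ∀ B : Finset ℤ, ∑ j ∈ B, Bd δ τ η X j ≤ S) (n : ℕ) (c : ℤ) :
    ∑ k ∈ Finset.range n, Bd δ τ η X ((k : ℤ) + c) ≤ S := by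
  have h := hS ((Finset.range n).image (fun k : ℕ ↦ (k : ℤ) + c))
  rwa [Finset.sum_image] at h
  intro a _ b _ hab
  simpa using hab

lemma central_le (D : Dat κ δ τ C η) (hC : 0 < C) (hκ : κ ≤ 1 / 4) (hδ : 0 < δ) (hδ1 : δ < 1)
    (hτ : 0 < τ) (hτ1 : τ ≤ 1 / 2) {Z : ℝ}
    (hZ : ∀ w : ℂ, 3 / 4 ≤ w.re → ‖riemannZeta (2 * w)‖ ≤ Z) {X h : ℝ} (hX : 1 ≤ X) (hh : 0 < h)
    (hhX : h ≤ X) {S : ℝ} (hS : ∀ B : Finset ℤ, ∑ j ∈ B, Bd δ τ η X j ≤ S) {J : ℕ} (hJ : 1 ≤ J) :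
    ‖∫ y : ℝ in (-(J : ℝ))..J, liouPhiR X (X + h) (((2 : ℝ) : ℂ) + y * I)‖ ≤
      3456 * Z * C * (h * (X / h) ^ τ) * S + 96 * Z * C * X ^ 2 * (1 + (J : ℝ)) ^ (-(7 / 4 : ℝ)) := by
  have hXp : 0 < X := by linarith
  have hZ0 : 0 ≤ Z := (norm_nonneg _).trans (hZ 1 (by norm_num))
  have hJr : (1 : ℝ) ≤ J := by exact_mod_cast hJ
  set Q : ℝ := 384 * Z * C * (h * (X / h) ^ τ) with hQ
  have hQ0 : 0 ≤ Q := by positivity
  set E : ℝ := 24 * Z * C * X ^ 2 * (1 + (J : ℝ)) ^ (-(7 / 4 : ℝ)) with hE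
  have hE0 : 0 ≤ E := by positivity
  set a : ℕ → ℝ := fun k ↦ 1 - (1 - δ) * η ((k : ℤ) - J) with ha
  have ha34 : ∀ k, 3 / 4 ≤ a k ∧ a k ≤ 1 := fun k ↦
    ⟨(a_mem D hκ hδ hδ1 _).1, (a_mem D hκ hδ hδ1 _).2.1⟩
  have hcast : ∀ k : ℕ, (((k : ℤ) - J : ℤ) : ℝ) = -(J : ℝ) + k := by
    intro k; push_cast; ring
  have hn : 1 ≤ 2 * J := by omega
  have hn1 : ((2 * J - 1 : ℕ) : ℤ) - J = (J : ℤ) - 1 := by omega
  have hpath := path_bound (Ψ := liouPhiR X (X + h)) (u := 2) (t₀ := -(J : ℝ)) (n := 2 * J) hn a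
    (fun k ↦ (ha34 k).2.trans (by norm_num))
    (V := fun k ↦ Q * Bd δ τ η X ((k : ℤ) - J))
    (H := fun k ↦ Q * (4 * (Bd δ τ η X ((k : ℤ) - J) + Bd δ τ η X ((k : ℤ) - J + 1))))
    (E := E) ?_ ?_ ?_ ?_ ?_
  · have h0 : -(J : ℝ) + ((2 * J : ℕ) : ℝ) = J := by push_cast; ring
    rw [h0] at hpath
    refine hpath.trans ?_
    have h1 : ∑ k ∈ Finset.range (2 * J), Q * Bd δ τ η X ((k : ℤ) - J) ≤ Q * S := by
      rw [← Finset.mul_sum]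
      have := sum_shift hS (2 * J) (-(J : ℤ))
      gcongr
      simpa [sub_eq_add_neg] using this
    have hab : ∀ k, |a (k + 1) - a k| ≤ 1 := by
      intro k
      have h3 := ha34 k
      have h4 := ha34 (k + 1)
      rw [abs_le]
      constructor <;> linarith [h3.1, h3.2, h4.1, h4.2]
    have h2 : ∑ k ∈ Finset.range (2 * J - 1), Q * (4 * (Bd δ τ η X ((k : ℤ) - J)
        + Bd δ τ η X ((k : ℤ) - J + 1))) * |a (k + 1) - a k| ≤ Q * (8 * S) := by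
      calc _ ≤ ∑ k ∈ Finset.range (2 * J - 1), Q * (4 * (Bd δ τ η X ((k : ℤ) - J)
            + Bd δ τ η X ((k : ℤ) - J + 1))) * 1 := by
            refine Finset.sum_le_sum fun k _ ↦ ?_
            have h5 := Bd_nonneg (δ := δ) (τ := τ) (η := η) hX ((k : ℤ) - J)
            have h6 := Bd_nonneg (δ := δ) (τ := τ) (η := η) hX ((k : ℤ) - J + 1)
            exact mul_le_mul_of_nonneg_left (hab k) (by positivity)
        _ = Q * (4 * (∑ k ∈ Finset.range (2 * J - 1), Bd δ τ η X ((k : ℤ) + (-(J : ℤ)))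
            + ∑ k ∈ Finset.range (2 * J - 1), Bd δ τ η X ((k : ℤ) + (-(J : ℤ) + 1)))) := by
            rw [← Finset.sum_add_distrib, Finset.mul_sum, Finset.mul_sum]
            refine Finset.sum_congr rfl fun k _ ↦ ?_
            rw [mul_one, sub_eq_add_neg, ← add_assoc]
        _ ≤ Q * (4 * (S + S)) := by
            gcongr
            · exact sum_shift hS _ _
            · exact sum_shift hS _ _
        _ = _ := by ring
    have h3 : E * (2 - a 0) ≤ E * 2 := by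
      have := (ha34 0).1
      gcongr
      linarith
    have h4 : E * (2 - a (2 * J - 1)) ≤ E * 2 := by
      have := (ha34 (2 * J - 1)).1
      gcongr
      linarith
    have h5 : 3456 * Z * C * (h * (X / h) ^ τ) * S = Q * S + Q * (8 * S) := by rw [hQ]; ring
    have h6 : 96 * Z * C * X ^ 2 * (1 + (J : ℝ)) ^ (-(7 / 4 : ℝ)) = 4 * E := by rw [hE]; ring
    rw [h5, h6]
    linarith
  · -- differentiability
    intro k _ s h1 h2 h3 h4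
    refine phi_differentiableAt hX hh (by linarith [(ha34 k).1]) ?_
    refine zp_ne D hκ hδ hδ1 ((k : ℤ) - J) h1 ?_ ?_
    · rw [hcast]; exact h3
    · rw [hcast]; exact h4
  · -- vertical sides
    intro k _ y h1 h2
    exact phi_vert D hC hκ hδ hδ1 hτ hτ1 hZ hX hh hhX ((k : ℤ) - J) (by rw [hcast]; exact h1)
      (by rw [hcast]; exact h2)
  · -- horizontal sides
    intro k _ x h1 h2
    have h3 : ((k + 1 : ℕ) : ℤ) - J = (k : ℤ) - J + 1 := by push_cast; ring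
    have h4 : a (k + 1) = 1 - (1 - δ) * η ((k : ℤ) - J + 1) := by
      simp only [ha]
      rw [h3]
    rw [h4] at h1 h2
    have h5 := phi_hor D hC hκ hδ hδ1 hτ hτ1 hZ hX hh hhX ((k : ℤ) - J) h1 h2
    rw [hcast] at h5
    have h6 : -(J : ℝ) + (k + 1) = -(J : ℝ) + k + 1 := by ring
    rw [h6]
    exact h5
  · -- bottom
    intro x h1 h2
    have h3 : a 0 = 1 - (1 - δ) * η (-(J : ℤ)) := by
      simp [ha]
    rw [h3] at h1
    have h4 := phi_crude D hC hκ hδ hδ1 hτ1 hZ hX hh hhX (-(J : ℤ)) (x := x) (y := -(J : ℝ))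
      (by push_cast; exact le_rfl) (by push_cast; linarith) h1 h2
    rw [abs_neg, abs_of_nonneg (by linarith : (0 : ℝ) ≤ J)] at h4
    exact h4
  · -- top
    intro x h1 h2
    have h3 : a (2 * J - 1) = 1 - (1 - δ) * η ((J : ℤ) - 1) := by
      simp only [ha]
      rw [hn1]
    rw [h3] at h1
    have h4 := phi_crude D hC hκ hδ hδ1 hτ1 hZ hX hh hhX ((J : ℤ) - 1) (x := x) (y := (J : ℝ))
      (by push_cast; linarith) (by push_cast; linarith) h1 h2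
    rw [abs_of_nonneg (by linarith : (0 : ℝ) ≤ J)] at h4
    have h0 : -(J : ℝ) + ((2 * J : ℕ) : ℝ) = J := by push_cast; ring
    rw [h0]
    exact h4

lemma phi_line (D : Dat κ δ τ C η) (hC : 0 < C) (hκ : κ ≤ 1 / 4) (hδ : 0 < δ) (hδ1 : δ < 1)
    (hτ1 : τ ≤ 1 / 2) {Z : ℝ}
    (hZ : ∀ w : ℂ, 3 / 4 ≤ w.re → ‖riemannZeta (2 * w)‖ ≤ Z) {X h : ℝ} (hX : 1 ≤ X) (hh : 0 < h)
    (hhX : h ≤ X) (y : ℝ) :
    ‖liouPhiR X (X + h) (((2 : ℝ) : ℂ) + y * I)‖ ≤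
      24 * Z * C * X ^ 2 * (1 + |y|) ^ (-(7 / 4 : ℝ)) :=
  phi_crude D hC hκ hδ hδ1 hτ1 hZ hX hh hhX ⌊y⌋ (Int.floor_le y) (Int.lt_floor_add_one y).le
    ((a_mem D hκ hδ hδ1 _).2.1.trans (by norm_num)) le_rfl

lemma phi_cont {X h : ℝ} (hX : 1 ≤ X) (hh : 0 < h) :
    Continuous fun y : ℝ ↦ liouPhiR X (X + h) (((2 : ℝ) : ℂ) + y * I) := by
  rw [continuous_iff_continuousAt]
  intro y
  have hre : (((2 : ℝ) : ℂ) + y * I).re = 2 := by simp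
  refine ContinuousAt.comp (f := fun y : ℝ ↦ ((2 : ℝ) : ℂ) + y * I)
    (phi_differentiableAt hX hh (by rw [hre]; norm_num) ?_).continuousAt (by fun_prop)
  exact zetaPole_ne_zero_of_one_le (by rw [hre]; norm_num)

lemma full_le (D : Dat κ δ τ C η) (hC : 0 < C) (hκ : κ ≤ 1 / 4) (hδ : 0 < δ) (hδ1 : δ < 1)
    (hτ : 0 < τ) (hτ1 : τ ≤ 1 / 2) {Z : ℝ}
    (hZ : ∀ w : ℂ, 3 / 4 ≤ w.re → ‖riemannZeta (2 * w)‖ ≤ Z) {M : ℕ} (hM : 1 ≤ M) {h : ℝ}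
    (hh : 0 < h) (hhX : h ≤ M) {S : ℝ} (hS : ∀ B : Finset ℤ, ∑ j ∈ B, Bd δ τ η M j ≤ S) :
    ‖∫ y : ℝ, liouPhiR M (M + h) (((2 : ℝ) : ℂ) + y * I)‖ ≤
      3456 * Z * C * (h * (M / h) ^ τ) * S +
        (96 * Z * C + 24 * Z * C * ∫ y : ℝ, (1 + |y|) ^ (-(5 / 4 : ℝ))) := by
  have hX : (1 : ℝ) ≤ M := by exact_mod_cast hM
  have hXp : (0 : ℝ) < M := by linarith
  have hZ0 : 0 ≤ Z := (norm_nonneg _).trans (hZ 1 (by norm_num))
  set J : ℕ := M ^ 4 with hJ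
  have hJ1 : 1 ≤ J := Nat.one_le_pow _ _ hM
  have hJr : (1 : ℝ) ≤ J := by exact_mod_cast hJ1
  have hJM : (J : ℝ) = (M : ℝ) ^ 4 := by rw [hJ]; push_cast; rfl
  have hline := phi_line D hC hκ hδ hδ1 hτ1 hZ hX hh hhX
  have hcont := phi_cont hX hh
  have hI := integrable_one_add_abs_rpow (p := 7 / 4) (by norm_num)
  have hI2 := integrable_one_add_abs_rpow (p := 5 / 4) (by norm_num)
  have hint : Integrable fun y : ℝ ↦ liouPhiR M (M + h) (((2 : ℝ) : ℂ) + y * I) :=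
    Integrable.mono' (hI.const_mul (24 * Z * C * (M : ℝ) ^ 2)) hcont.aestronglyMeasurable
      (Eventually.of_forall hline)
  rw [← integral_add_compl (measurableSet_Ioc (a := -(J : ℝ)) (b := J)) hint]
  refine (norm_add_le _ _).trans ?_
  rw [← intervalIntegral.integral_of_le (by linarith)]
  have h1 := central_le D hC hκ hδ hδ1 hτ hτ1 hZ hX hh hhX hS hJ1
  have hM2 : (M : ℝ) ^ 2 * (1 + (J : ℝ)) ^ (-(1 / 2 : ℝ)) ≤ 1 := by
    have h2 : (1 + (J : ℝ)) ^ (-(1 / 2 : ℝ)) ≤ ((M : ℝ) ^ 4) ^ (-(1 / 2 : ℝ)) :=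
      Real.rpow_le_rpow_of_nonpos (by positivity) (by rw [hJM]; linarith) (by norm_num)
    have h3 : ((M : ℝ) ^ 4) ^ (-(1 / 2 : ℝ)) = ((M : ℝ) ^ 2)⁻¹ := by
      rw [← Real.rpow_natCast, ← Real.rpow_mul hXp.le,
        show ((4 : ℕ) : ℝ) * (-(1 / 2 : ℝ)) = -((2 : ℕ) : ℝ) by norm_num,
        Real.rpow_neg hXp.le, Real.rpow_natCast]
    rw [h3] at h2
    calc _ ≤ (M : ℝ) ^ 2 * ((M : ℝ) ^ 2)⁻¹ := by gcongr
      _ = 1 := mul_inv_cancel₀ (by positivity)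
  have h4 : 96 * Z * C * (M : ℝ) ^ 2 * (1 + (J : ℝ)) ^ (-(7 / 4 : ℝ)) ≤ 96 * Z * C := by
    have h5 : (1 + (J : ℝ)) ^ (-(7 / 4 : ℝ)) ≤ (1 + (J : ℝ)) ^ (-(1 / 2 : ℝ)) :=
      Real.rpow_le_rpow_of_exponent_le (by linarith) (by norm_num)
    calc _ ≤ 96 * Z * C * (M : ℝ) ^ 2 * (1 + (J : ℝ)) ^ (-(1 / 2 : ℝ)) := by gcongr
      _ = 96 * Z * C * ((M : ℝ) ^ 2 * (1 + (J : ℝ)) ^ (-(1 / 2 : ℝ))) := by ring
      _ ≤ 96 * Z * C * 1 := by gcongr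
      _ = _ := by ring
  have h6 : ‖∫ y : ℝ in (Ioc (-(J : ℝ)) J)ᶜ, liouPhiR M (M + h) (((2 : ℝ) : ℂ) + y * I)‖
      ≤ 24 * Z * C * ∫ y : ℝ, (1 + |y|) ^ (-(5 / 4 : ℝ)) := by
    have h7 : ‖∫ y : ℝ in (Ioc (-(J : ℝ)) J)ᶜ, liouPhiR M (M + h) (((2 : ℝ) : ℂ) + y * I)‖
        ≤ ∫ y : ℝ in (Ioc (-(J : ℝ)) J)ᶜ, 24 * Z * C * (1 + |y|) ^ (-(5 / 4 : ℝ)) := by
      refine norm_integral_le_of_norm_le ((hI2.const_mul _).integrableOn) ?_
      filter_upwards [ae_restrict_mem measurableSet_Ioc.compl] with y hy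
      have hyT : (J : ℝ) ≤ |y| := by
        by_contra hcon
        push Not at hcon
        apply hy
        have := abs_lt.mp hcon
        exact ⟨this.1, this.2.le⟩
      have hpos : 0 < 1 + |y| := by linarith
      have h8 : (1 + |y|) ^ (-(7 / 4 : ℝ)) = (1 + |y|) ^ (-(1 / 2 : ℝ)) *
          (1 + |y|) ^ (-(5 / 4 : ℝ)) := by
        rw [← Real.rpow_add hpos]
        norm_num
      have h9 : (1 + |y|) ^ (-(1 / 2 : ℝ)) ≤ (1 + (J : ℝ)) ^ (-(1 / 2 : ℝ)) :=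
        Real.rpow_le_rpow_of_nonpos (by positivity) (by linarith) (by norm_num)
      calc _ ≤ 24 * Z * C * (M : ℝ) ^ 2 * (1 + |y|) ^ (-(7 / 4 : ℝ)) := hline y
        _ = 24 * Z * C * (M : ℝ) ^ 2 * ((1 + |y|) ^ (-(1 / 2 : ℝ)) *
            (1 + |y|) ^ (-(5 / 4 : ℝ))) := by rw [h8]
        _ ≤ 24 * Z * C * (M : ℝ) ^ 2 * ((1 + (J : ℝ)) ^ (-(1 / 2 : ℝ)) *
            (1 + |y|) ^ (-(5 / 4 : ℝ))) := by gcongr
        _ = 24 * Z * C * ((M : ℝ) ^ 2 * (1 + (J : ℝ)) ^ (-(1 / 2 : ℝ))) *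
            (1 + |y|) ^ (-(5 / 4 : ℝ)) := by ring
        _ ≤ 24 * Z * C * 1 * (1 + |y|) ^ (-(5 / 4 : ℝ)) := by gcongr
        _ = _ := by ring
    refine h7.trans ?_
    rw [integral_const_mul]
    have h10 : ∫ y : ℝ in (Ioc (-(J : ℝ)) J)ᶜ, (1 + |y|) ^ (-(5 / 4 : ℝ))
        ≤ ∫ y : ℝ, (1 + |y|) ^ (-(5 / 4 : ℝ)) :=
      setIntegral_le_integral hI2 (Eventually.of_forall fun y ↦ by positivity)
    gcongr
  linarith

end

end Pool.Agent.H48.UB
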