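import Mathlib
import Pool.Agent.H48.UB.Upper2

/-!
# The upper bound for the logarithmic sums of `λ`, with the exact exponent
-/

set_option autoImplicit false

open Complex Filter Topology MeasureTheory Set LSeries

namespace Pool.Agent.H48.UB

open Pool.Agent.H6 Pool.Agent.H48.UP

lemma sum_Bd {κ δ τ : ℝ} (hκ : 0 < κ) (hκ1 : κ ≤ 1 / 4) (hδ1 : δ < 1) (hκδ : 4 * κ < δ)
    (hτ : 0 < τ) : ∃ K : ℝ, 0 < K ∧ ∀ η : ℤ → ℝ,
      (∀ j : ℤ, η j = κ ∨
        ((∃ u : ℂ, zetaPole u = 0 ∧ (j : ℝ) - 1 ≤ u.im ∧ u.im ≤ j + 2 ∧ 1 - κ < u.re) ∧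
          ∀ x : ℝ, 1 ≤ x → om x - Real.log (3 + |(j : ℝ)|) ≤ η j * Real.log x)) →
      ∀ X : ℝ, 1 ≤ X → ∀ B : Finset ℤ, ∑ j ∈ B, Bd δ τ η X j ≤
        K * (Real.exp (-(1 - δ) * om X) + Real.exp (-(1 - δ) * (κ * Real.log X))) := by
  classical
  obtain ⟨C1, hC1, h1⟩ := bad_sum hκ hκ1 hκδ
  obtain ⟨C2, hC2, h2⟩ := int_sum (p := 1 + τ / 2) (by linarith)
  refine ⟨max C1 C2, by positivity, fun η hη X hX B ↦ ?_⟩
  have hXp : 0 < X := by linarith
  have hδ0 : 0 < δ := by linarith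
  rw [← Finset.sum_filter_add_sum_filter_not B (fun j ↦ η j = κ), add_comm, mul_add]
  have hgood : ∑ j ∈ B with η j = κ, Bd δ τ η X j ≤
      max C1 C2 * Real.exp (-(1 - δ) * (κ * Real.log X)) := by
    calc ∑ j ∈ B with η j = κ, Bd δ τ η X j
        = ∑ j ∈ B with η j = κ, Real.exp (-(1 - δ) * (κ * Real.log X)) *
            (3 + |(j : ℝ)|) ^ (-(1 + τ / 2)) := by
          refine Finset.sum_congr rfl fun j hj ↦ ?_
          rw [Finset.mem_filter] at hj
          rw [Bd, hj.2, Real.rpow_def_of_pos hXp]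
          congr 2
          ring
      _ = Real.exp (-(1 - δ) * (κ * Real.log X)) *
            ∑ j ∈ B with η j = κ, (3 + |(j : ℝ)|) ^ (-(1 + τ / 2)) := by rw [Finset.mul_sum]
      _ ≤ Real.exp (-(1 - δ) * (κ * Real.log X)) * max C1 C2 := by
          gcongr
          exact (h2 _).trans (le_max_right _ _)
      _ = _ := by ring
  have hbad : ∑ j ∈ B with ¬ η j = κ, Bd δ τ η X j ≤
      max C1 C2 * Real.exp (-(1 - δ) * om X) := by
    calc ∑ j ∈ B with ¬ η j = κ, Bd δ τ η X j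
        ≤ ∑ j ∈ B with ¬ η j = κ, Real.exp (-(1 - δ) * om X) * (3 + |(j : ℝ)|) ^ (-δ) := by
          refine Finset.sum_le_sum fun j hj ↦ ?_
          rw [Finset.mem_filter] at hj
          obtain ⟨-, h3⟩ := (hη j).resolve_left hj.2
          have h4 := h3 X hX
          have hpj : 0 < 3 + |(j : ℝ)| := by linarith [abs_nonneg (j : ℝ)]
          have hpj1 : 1 ≤ 3 + |(j : ℝ)| := by linarith [abs_nonneg (j : ℝ)]
          have h5 : X ^ (-(1 - δ) * η j) ≤
              Real.exp (-(1 - δ) * om X) * (3 + |(j : ℝ)|) ^ (1 - δ) := by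
            rw [Real.rpow_def_of_pos hXp, Real.rpow_def_of_pos hpj, ← Real.exp_add]
            apply Real.exp_le_exp.2
            have h6 : (1 - δ) * (om X - Real.log (3 + |(j : ℝ)|)) ≤
                (1 - δ) * (η j * Real.log X) :=
              mul_le_mul_of_nonneg_left h4 (by linarith)
            linarith
          have h7 : (3 + |(j : ℝ)|) ^ (1 - δ) * (3 + |(j : ℝ)|) ^ (-(1 + τ / 2)) ≤
              (3 + |(j : ℝ)|) ^ (-δ) := by
            rw [← Real.rpow_add hpj]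
            exact Real.rpow_le_rpow_of_exponent_le hpj1 (by linarith)
          rw [Bd]
          calc _ ≤ Real.exp (-(1 - δ) * om X) * (3 + |(j : ℝ)|) ^ (1 - δ) *
                (3 + |(j : ℝ)|) ^ (-(1 + τ / 2)) := by gcongr
            _ = Real.exp (-(1 - δ) * om X) * ((3 + |(j : ℝ)|) ^ (1 - δ) *
                (3 + |(j : ℝ)|) ^ (-(1 + τ / 2))) := by ring
            _ ≤ _ := by gcongr
      _ = Real.exp (-(1 - δ) * om X) * ∑ j ∈ B with ¬ η j = κ, (3 + |(j : ℝ)|) ^ (-δ) := by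
          rw [Finset.mul_sum]
      _ ≤ Real.exp (-(1 - δ) * om X) * max C1 C2 := by
          gcongr
          refine (h1 _ fun j hj ↦ ?_).trans (le_max_left _ _)
          rw [Finset.mem_filter] at hj
          exact ((hη j).resolve_left hj.2).1
      _ = _ := by ring
  exact add_le_add hbad hgood

theorem upper_one (hT : ∀ e : ℝ, 0 < e → ∃ r ∈ Zer, 1 - e < r.re) {ε : ℝ} (hε : 0 < ε)
    (hε1 : ε < 1) :
    ∃ x₀ : ℕ, ∀ x : ℕ, x₀ ≤ x → |Sl x| ≤ Real.exp (-(1 - ε) * om x) := by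
  set δ : ℝ := ε / 4 with hδd
  have hδ : 0 < δ := by positivity
  have hδ1 : δ < 1 := by rw [hδd]; linarith
  have hδ4 : δ ≤ 1 / 4 := by rw [hδd]; linarith
  obtain ⟨κ₀, k1, k2, k3⟩ := exists_dat (δ := δ) (τ := δ) hδ hδ1 hδ
  set κ : ℝ := min κ₀ (δ / 8) with hκd
  have hκ : 0 < κ := by positivity
  have hκ1 : κ ≤ 1 / 4 := (min_le_left _ _).trans k2
  have hκδ : 4 * κ < δ := by
    have : κ ≤ δ / 8 := min_le_right _ _
    linarith
  obtain ⟨C, η, hC, D, hη⟩ := k3 κ hκ (min_le_left _ _)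
  obtain ⟨K, hK, hS⟩ := sum_Bd (τ := δ) hκ hκ1 hδ1 hκδ hδ
  set Z : ℝ := ∑' n : ℕ, 1 / (n : ℝ) ^ (3 / 2 : ℝ) with hZd
  have hZ : ∀ w : ℂ, 3 / 4 ≤ w.re → ‖riemannZeta (2 * w)‖ ≤ Z := by
    intro w hw
    refine norm_riemannZeta_le (by norm_num) ?_
    have : (2 * w).re = 2 * w.re := by simp
    rw [this]
    linarith
  have hZ0 : 0 ≤ Z := (norm_nonneg _).trans (hZ 1 (by norm_num))
  set I0 : ℝ := ∫ y : ℝ, (1 + |y|) ^ (-(5 / 4 : ℝ)) with hI0
  have hI0nn : 0 ≤ I0 := integral_nonneg fun y ↦ by positivity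
  set C3 : ℝ := 96 * Z * C + 24 * Z * C * I0 with hC3
  have hC3nn : 0 ≤ C3 := by positivity
  set A : ℝ := 3456 * Z * C * (2 * K) + C3 + 1 with hA
  have hA1 : 1 ≤ A := by
    have : 0 ≤ 3456 * Z * C * (2 * K) := by positivity
    linarith
  have hlogA : 0 ≤ Real.log A := Real.log_nonneg hA1
  obtain ⟨c, hc, hlow⟩ := om_lower
  obtain ⟨r0, hr0, hr0'⟩ := hT (κ / 8) (by positivity)
  have hlogt : Tendsto (fun x : ℕ ↦ Real.log x) atTop atTop :=
    Real.tendsto_log_atTop.comp tendsto_natCast_atTop_atTop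
  have hsqrt : Tendsto (fun x : ℕ ↦ Real.sqrt (Real.log x)) atTop atTop :=
    Real.tendsto_sqrt_atTop.comp hlogt
  have hev : ∀ᶠ x : ℕ in atTop, 2 ≤ x ∧ Real.log (1 + |r0.im|) / (κ / 8) ≤ Real.log x ∧
      Real.log A / (ε / 2) / c ≤ Real.sqrt (Real.log x) := by
    filter_upwards [eventually_ge_atTop 2,
      hlogt.eventually_ge_atTop (Real.log (1 + |r0.im|) / (κ / 8)),
      hsqrt.eventually_ge_atTop (Real.log A / (ε / 2) / c)] with x h1 h2 h3
    exact ⟨h1, h2, h3⟩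
  obtain ⟨x₀, hx₀⟩ := eventually_atTop.1 hev
  refine ⟨x₀, fun M hM ↦ ?_⟩
  obtain ⟨hM2, hML, hMs⟩ := hx₀ M hM
  have hMr : (2 : ℝ) ≤ M := by exact_mod_cast hM2
  have hM1 : 1 ≤ M := by omega
  have hMp : (0 : ℝ) < M := by linarith
  have hX : (1 : ℝ) ≤ M := by linarith
  set L : ℝ := Real.log M with hL
  have hL0 : 0 ≤ L := Real.log_nonneg hX
  set ω : ℝ := om M with hω
  have hω0 : 0 ≤ ω := om_nonneg hX
  have hωA : Real.log A ≤ ε / 2 * ω := by
    have h1 := hlow M hMr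
    rw [div_le_iff₀ hc] at hMs
    have h2 : Real.log A / (ε / 2) ≤ ω := by linarith
    rw [div_le_iff₀ (by positivity)] at h2
    linarith
  have hωL : ω ≤ κ / 4 * L := by
    have h1 := om_le hX hr0
    have h2 : Real.log (1 + |r0.im|) ≤ κ / 8 * L := by
      rw [div_le_iff₀ (by positivity)] at hML
      linarith
    have h3 : (1 - r0.re) * L ≤ κ / 8 * L := by
      gcongr
      linarith
    linarith
  -- the parameter
  set h : ℝ := M * Real.exp (-ω) with hh
  have hhp : 0 < h := by positivity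
  have hhM : h ≤ M := by
    have : Real.exp (-ω) ≤ 1 := Real.exp_le_one_iff.2 (by linarith)
    calc h ≤ M * 1 := by rw [hh]; gcongr
      _ = M := mul_one _
  have hMh : (M : ℝ) / h = Real.exp ω := by
    rw [hh, Real.exp_neg]
    field_simp
  have hMexp : (M : ℝ) = Real.exp L := (Real.exp_log hMp).symm
  -- Perron
  have hsum1 : LSeriesSummable liouCoeff ((1 : ℝ) : ℂ) := by
    unfold LSeriesSummable
    rw [term_liouCoeff]
    exact LSeriesSummable_liou (by simp)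
  have hP := perronR one_pos hsum1 (X₁ := M) (X₂ := M + h) hMp (by linarith) (K := 2 * M)
    (by push_cast; linarith)
  have hPphi : ∀ y : ℝ, kernR (M : ℝ) (M + h) (((1 : ℝ) : ℂ) + y * I) *
      LSeries liouCoeff (((1 : ℝ) : ℂ) + y * I)
      = liouPhiR M (M + h) (((2 : ℝ) : ℂ) + y * I) := by
    intro y
    rw [kernR_mul_LSeries (by simp)]
    congr 1
    push_cast
    ring
  simp_rw [hPphi] at hP
  have hfull := full_le D hC hκ1 hδ hδ1 hδ (by linarith) hZ hM1 hhp hhM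
    (hS η hη M hX)
  have hpi : ‖(1 / (2 * Real.pi) : ℂ)‖ ≤ 1 := by
    have h1 : (1 / (2 * Real.pi) : ℂ) = ((1 / (2 * Real.pi) : ℝ) : ℂ) := by push_cast; rfl
    rw [h1, norm_real, Real.norm_of_nonneg (by positivity), div_le_one (by positivity)]
    have := Real.pi_gt_three
    linarith
  have hun := unsmooth hM1 hhp
  rw [hP, norm_mul, norm_mul, norm_real, Real.norm_of_nonneg hhp.le, norm_sum_liou] at hun
  -- the three terms
  have hgoal : -(1 - ε) * ω = ε / 2 * ω + -(1 - ε / 2) * ω := by ring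
  set W : ℝ := Real.exp (-(1 - ε / 2) * ω) with hW
  have hWp : 0 < W := Real.exp_pos _
  have hSle : Real.exp (δ * ω) * (Real.exp (-(1 - δ) * ω) + Real.exp (-(1 - δ) * (κ * L)))
      ≤ 2 * W := by
    rw [mul_add, ← Real.exp_add, ← Real.exp_add, two_mul, hW]
    apply add_le_add
    · apply Real.exp_le_exp.2
      rw [hδd]
      linarith
    · apply Real.exp_le_exp.2
      have h1 : 4 * ω ≤ κ * L := by linarith
      have h2 : (1 - δ) * (4 * ω) ≤ (1 - δ) * (κ * L) :=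
        mul_le_mul_of_nonneg_left h1 (by linarith)
      have h3 : δ * ω ≤ 1 / 4 * ω := by gcongr
      have h4 : ε / 2 * ω ≥ 0 := by positivity
      linarith
  have hCle : C3 ≤ h * (C3 * W) := by
    have h1 : 1 ≤ h * W := by
      rw [hh, hW, hMexp, ← Real.exp_add, ← Real.exp_add]
      apply Real.one_le_exp
      have h4 : 0 ≤ ε / 2 * ω := by positivity
      have h5 : κ / 4 * L ≤ 1 / 16 * L := mul_le_mul_of_nonneg_right (by linarith) hL0
      linarith
    calc C3 = C3 * 1 := (mul_one _).symm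
      _ ≤ C3 * (h * W) := by gcongr
      _ = _ := by ring
  have hMle : h ^ 2 / M ≤ h * W := by
    have h1 : h ^ 2 / M = h * Real.exp (-ω) := by
      rw [hh]
      field_simp
    rw [h1, hW]
    gcongr
    have h4 : 0 ≤ ε / 2 * ω := by positivity
    linarith
  have htot : h * |Sl M| ≤ h * (A * W) := by
    calc h * |Sl M| ≤ ‖(1 / (2 * Real.pi) : ℂ)‖ *
          ‖∫ y : ℝ, liouPhiR M (M + h) (((2 : ℝ) : ℂ) + y * I)‖ + h ^ 2 / M := hun
      _ ≤ 1 * (3456 * Z * C * (h * (M / h) ^ δ) *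
          (K * (Real.exp (-(1 - δ) * ω) + Real.exp (-(1 - δ) * (κ * L)))) + C3) + h * W := by
          gcongr
      _ = h * (3456 * Z * C * K * (Real.exp (δ * ω) *
          (Real.exp (-(1 - δ) * ω) + Real.exp (-(1 - δ) * (κ * L))))) + C3 + h * W := by
          have : (M / h) ^ δ = Real.exp (δ * ω) := by
            rw [hMh, ← Real.exp_mul]
            congr 1
            ring
          rw [this]
          ring
      _ ≤ h * (3456 * Z * C * K * (2 * W)) + h * (C3 * W) + h * W := by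
          gcongr
      _ = h * (A * W) := by rw [hA]; ring
  have hfin := le_of_mul_le_mul_left htot hhp
  rw [hgoal, Real.exp_add]
  refine hfin.trans ?_
  rw [← hW]
  gcongr
  rw [← Real.log_le_iff_le_exp (by linarith)]
  exact hωA

/-- **The upper bound for `λ`, with the exact exponent.** -/
theorem upper {ε : ℝ} (hε : 0 < ε) :
    ∃ x₀ : ℕ, ∀ x : ℕ, x₀ ≤ x → |Sl x| ≤ Real.exp (-(1 - ε) * om x) := by
  set e : ℝ := min ε (1 / 2) with he
  have he0 : 0 < e := by positivity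
  have he1 : e < 1 := lt_of_le_of_lt (min_le_right _ _) (by norm_num)
  have hee : e ≤ ε := min_le_left _ _
  have key : ∃ x₀ : ℕ, ∀ x : ℕ, x₀ ≤ x → |Sl x| ≤ Real.exp (-(1 - e) * om x) := by
    by_cases hT : ∀ e : ℝ, 0 < e → ∃ r ∈ Zer, 1 - e < r.re
    · exact upper_one hT he0 he1
    · push Not at hT
      exact upper_small hT he0 he1
  obtain ⟨x₀, h⟩ := key
  refine ⟨max x₀ 1, fun x hx ↦ ?_⟩
  refine (h x ((le_max_left _ _).trans hx)).trans (Real.exp_le_exp.2 ?_)
  have hx1 : (1 : ℝ) ≤ x := by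
    have := (le_max_right x₀ 1).trans hx
    exact_mod_cast this
  have h0 := om_nonneg hx1
  nlinarith

end Pool.Agent.H48.UB
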