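import Mathlib
import Pool.Agent.H48.UB.Final
import Pool.Agent.H48.UP.Osc

/-!
# No completely multiplicative function beats `λ` by a power
-/

set_option autoImplicit false

open Complex Filter Topology Set

namespace Pool.Agent.H48.UB

open Pool.Agent.H6 Pool.Agent.H48.UP

theorem compare {ε : ℝ} (hε : 0 < ε) (Y : ℕ) : ∃ X : ℕ, ∀ f : ℕ →*₀ ℝ, (∀ n, |f n| ≤ 1) →
    ∃ y : ℕ, Y ≤ y ∧ y ≤ X ∧ |Sl y| ^ (1 + ε) < S f y := by
  set a : ℝ := ε / (2 + ε) with ha
  have ha0 : 0 < a := by positivity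
  have ha1 : (1 - a) * (1 + ε) = 1 + a := by
    rw [ha]
    field_simp
    ring
  obtain ⟨x₁, hup⟩ := upper ha0
  obtain ⟨ε', hε', x₀, hosc⟩ := osc ha0
  set Y' : ℕ := max (max Y x₁) 1 with hY'
  have hY'1 : 1 ≤ Y' := le_max_right _ _
  have hYY' : Y ≤ Y' := (le_max_left _ _).trans (le_max_left _ _)
  have hxY' : x₁ ≤ Y' := (le_max_right _ _).trans (le_max_left _ _)
  have hY'r : (1 : ℝ) ≤ Y' := by exact_mod_cast hY'1
  have hlY : 0 ≤ Real.log Y' := Real.log_nonneg hY'r
  obtain ⟨r0, hr0, -⟩ := zer_half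
  set C0 : ℝ := Real.log (1 + |r0.im|) with hC0
  have hC0nn : 0 ≤ C0 := Real.log_nonneg (by linarith [abs_nonneg r0.im])
  obtain ⟨c, hc, hlow⟩ := om_lower
  set R : ℝ := ((1 + a) * (Real.log Y' + C0) + Real.log (1 + Real.log Y')) / ε' / c with hR
  have hev : ∀ᶠ x : ℕ in atTop, x₀ ≤ x ∧ 2 ≤ x ∧ R ≤ Real.sqrt (Real.log x) := by
    have hsqrt : Tendsto (fun x : ℕ ↦ Real.sqrt (Real.log x)) atTop atTop :=
      Real.tendsto_sqrt_atTop.comp (Real.tendsto_log_atTop.comp tendsto_natCast_atTop_atTop)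
    filter_upwards [eventually_ge_atTop x₀, eventually_ge_atTop 2, hsqrt.eventually_ge_atTop R]
      with x h1 h2 h3
    exact ⟨h1, h2, h3⟩
  obtain ⟨X, hX0, hX2, hXR⟩ := hev.exists
  refine ⟨X, fun f hf ↦ ?_⟩
  obtain ⟨y, hy1, hyX, hy⟩ := hosc X hX0 f hf
  have hXr : (2 : ℝ) ≤ X := by exact_mod_cast hX2
  have hy1r : (1 : ℝ) ≤ y := by exact_mod_cast hy1
  have hyY : Y' ≤ y := by
    by_contra hcon
    push Not at hcon
    have hyY'r : (y : ℝ) ≤ Y' := by exact_mod_cast hcon.le
    have hly : Real.log y ≤ Real.log Y' := Real.log_le_log (by linarith) hyY'r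
    have hly0 : 0 ≤ Real.log y := Real.log_nonneg hy1r
    have h1 : S f y ≤ 1 + Real.log Y' :=
      (le_abs_self _).trans ((abs_S_le hf hy1).trans (by linarith))
    have h2 : om y ≤ Real.log Y' + C0 := by
      have h3 := om_le hy1r hr0
      have h4 : (1 - r0.re) * Real.log y ≤ 1 * Real.log y := by
        gcongr
        linarith [hr0.2.1]
      linarith
    have h5 : (1 + a) * (Real.log Y' + C0) + Real.log (1 + Real.log Y') ≤ ε' * om X := by
      have h6 := hlow X hXr
      have h7 : R * c ≤ om X := by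
        calc R * c ≤ Real.sqrt (Real.log X) * c := by gcongr
          _ = c * Real.sqrt (Real.log X) := mul_comm _ _
          _ ≤ om X := h6
      have h8 : R * c * ε' = (1 + a) * (Real.log Y' + C0) + Real.log (1 + Real.log Y') := by
        rw [hR]
        field_simp
      rw [← h8, mul_comm ε']
      gcongr
    have h9 : (1 + a) * om y ≤ (1 + a) * (Real.log Y' + C0) := by gcongr
    have h10 : 1 + Real.log Y' ≤ Real.exp (ε' * om X - (1 + a) * om y) := by
      rw [← Real.log_le_iff_le_exp (by linarith)]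
      linarith
    linarith
  refine ⟨y, hYY'.trans hyY, hyX, lt_of_le_of_lt ?_ hy⟩
  have h1 := hup y (hxY'.trans hyY)
  have hom0 : 0 ≤ om y := om_nonneg hy1r
  have homX : 0 ≤ om X := om_nonneg (by linarith)
  calc |Sl y| ^ (1 + ε) ≤ (Real.exp (-(1 - a) * om y)) ^ (1 + ε) :=
        Real.rpow_le_rpow (abs_nonneg _) h1 (by linarith)
    _ = Real.exp (-((1 - a) * (1 + ε)) * om y) := by
        rw [← Real.exp_mul]
        congr 1
        ring
    _ ≤ Real.exp (ε' * om X - (1 + a) * om y) := by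
        apply Real.exp_le_exp.2
        rw [ha1]
        have : 0 ≤ ε' * om X := by positivity
        linarith

end Pool.Agent.H48.UB
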